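import Mathlib

set_option autoImplicit false

/-!
# An averaging inequality for hypergraphs

`V` is a finite set, `H` a finite set of hyperedges on `V`.  The sets considered are the sets `W`
of vertices in which every vertex lies in a hyperedge contained in `W` (the unions of hyperedges).
-/

namespace Pool.Agent.W849.R3

open Finset

variable {V : Type*} [DecidableEq V] [Fintype V]

/-- every vertex of `W` lies in a hyperedge contained in `W` -/
def IsD (H : Finset (Finset V)) (W : Finset V) : Prop := ∀ v ∈ W, ∃ e ∈ H, v ∈ e ∧ e ⊆ W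

instance (H : Finset (Finset V)) : DecidablePred (IsD H) := fun W => by
  unfold IsD; infer_instance

variable (H : Finset (Finset V))

/-- all the sets -/
def DD : Finset (Finset V) := univ.filter (fun W => IsD H W)
/-- the sets containing `u` -/
def N (u : V) : Finset (Finset V) := (DD H).filter (fun W => u ∈ W)
/-- the sets not containing `u` -/
def M (u : V) : Finset (Finset V) := (DD H).filter (fun W => u ∉ W)
/-- the sets `W` with `u ∈ W` from which `u` cannot be removed -/
def E (u : V) : Finset (Finset V) := (N H u).filter (fun W => ¬ IsD H (W.erase u))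
/-- the sets `W` to which `u` cannot be added -/
def Z (u : V) : Finset (Finset V) := (M H u).filter (fun W => ¬ IsD H (insert u W))

theorem mem_DD {W : Finset V} : W ∈ DD H ↔ IsD H W := by simp [DD]

theorem N_Z_le (u : V) : (N H u).card + (Z H u).card ≤ (M H u).card + (E H u).card := by
  classical
  have h1 := Finset.card_filter_add_card_filter_not (s := N H u) (fun W => IsD H (W.erase u))
  have h2 : ((N H u).filter (fun W => IsD H (W.erase u))).card
      ≤ ((M H u) \ (Z H u)).card := by
    refine Finset.card_le_card_of_injOn (fun W => W.erase u) ?_ ?_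
    · intro W hW
      rw [mem_coe, mem_filter, N, mem_filter, mem_DD] at hW
      rw [mem_coe, mem_sdiff]
      obtain ⟨⟨hD, hu⟩, hD'⟩ := hW
      refine ⟨?_, ?_⟩
      · rw [M, mem_filter, mem_DD]
        exact ⟨hD', by simp⟩
      · rw [Z, mem_filter]
        rintro ⟨_, h⟩
        rw [insert_erase hu] at h
        exact h hD
    · intro W hW W' hW' heq
      rw [mem_coe, mem_filter, N, mem_filter] at hW hW'
      simp only at heq
      rw [← insert_erase hW.1.2, ← insert_erase hW'.1.2, heq]
  have h3 : ((M H u) \ (Z H u)).card + (Z H u).card = (M H u).card := by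
    exact Finset.card_sdiff_add_card_eq_card (Finset.filter_subset _ _)
  have h4 : (E H u).card = ((N H u).filter (fun W => ¬ IsD H (W.erase u))).card := rfl
  omega

theorem card_DD (u : V) : (N H u).card + (M H u).card = (DD H).card :=
  Finset.card_filter_add_card_filter_not (s := DD H) (fun W => u ∈ W)

/-- `z` depends on `v` in `W`: `v ≠ z` lies in all hyperedges through `z` contained in `W` -/
def Dep (W : Finset V) (v z : V) : Prop :=
  v ∈ W ∧ z ∈ W ∧ v ≠ z ∧ ∀ e ∈ H, z ∈ e → e ⊆ W → v ∈ e

instance (W : Finset V) (v z : V) : Decidable (Dep H W v z) := by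
  unfold Dep; infer_instance

/-- the vertices on which `z` depends -/
def J (W : Finset V) (z : V) : Finset V := univ.filter (fun v => Dep H W v z)
/-- the vertices which depend on `v` -/
def Dp (W : Finset V) (v : V) : Finset V := univ.filter (fun z => Dep H W v z)
/-- the vertices on which `z` and nobody else depends -/
def I (W : Finset V) (z : V) : Finset V := (J H W z).filter (fun v => Dp H W v = {z})

theorem dp_nonempty {W : Finset V} {v : V} (hv : v ∈ W)
    (h : ¬ IsD H (W.erase v)) : (Dp H W v).Nonempty := by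
  unfold IsD at h
  push Not at h
  obtain ⟨z, hz, hz2⟩ := h
  rw [mem_erase] at hz
  refine ⟨z, ?_⟩
  rw [Dp, mem_filter]
  refine ⟨mem_univ _, hv, hz.2, hz.1.symm, ?_⟩
  intro e he hze heW
  by_contra hve
  refine hz2 e he hze ?_
  intro x hx
  rw [mem_erase]
  refine ⟨?_, heW hx⟩
  rintro rfl
  exact hve hx

/-- the number of essential vertices is at most a sum over the dependent ones -/
theorem ess_le (W : Finset V) :
    2 * ((univ : Finset V).filter (fun v => v ∈ W ∧ ¬ IsD H (W.erase v))).card ≤
      ∑ z ∈ W, ((J H W z).card + (I H W z).card) := by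
  classical
  have h1 : ∀ v ∈ (univ : Finset V).filter (fun v => v ∈ W ∧ ¬ IsD H (W.erase v)),
      2 ≤ ∑ z ∈ Dp H W v, (1 + (if Dp H W v = {z} then 1 else 0)) := by
    intro v hv
    rw [mem_filter] at hv
    have hne := dp_nonempty H hv.2.1 hv.2.2
    rw [Finset.sum_add_distrib]
    simp only [sum_const, smul_eq_mul, mul_one]
    rcases Nat.lt_or_ge 1 (Dp H W v).card with h | h
    · omega
    · have hc : (Dp H W v).card = 1 := le_antisymm h (Finset.card_pos.mpr hne)
      obtain ⟨z, hz⟩ := Finset.card_eq_one.mp hc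
      rw [hz]
      simp
  calc 2 * ((univ : Finset V).filter (fun v => v ∈ W ∧ ¬ IsD H (W.erase v))).card
      = ∑ v ∈ (univ : Finset V).filter (fun v => v ∈ W ∧ ¬ IsD H (W.erase v)), 2 := by
        rw [sum_const, smul_eq_mul, mul_comm]
    _ ≤ ∑ v ∈ (univ : Finset V).filter (fun v => v ∈ W ∧ ¬ IsD H (W.erase v)),
          ∑ z ∈ Dp H W v, (1 + (if Dp H W v = {z} then 1 else 0)) := Finset.sum_le_sum h1
    _ ≤ ∑ v ∈ (univ : Finset V), ∑ z ∈ Dp H W v, (1 + (if Dp H W v = {z} then 1 else 0)) :=
        Finset.sum_le_sum_of_subset (Finset.filter_subset _ _)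
    _ = ∑ z ∈ W, ∑ v ∈ J H W z, (1 + (if Dp H W v = {z} then 1 else 0)) := by
        refine Finset.sum_comm' ?_
        intro v z
        simp only [Dp, J, mem_filter, mem_univ, true_and]
        constructor
        · intro h; exact ⟨h, h.2.1⟩
        · intro h; exact h.1
    _ = ∑ z ∈ W, ((J H W z).card + (I H W z).card) := by
        refine Finset.sum_congr rfl ?_
        intro z _
        rw [Finset.sum_add_distrib]
        congr 1
        · simp
        · rw [I, Finset.card_filter]

variable (K : V → Finset (Finset V))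

/-- the chosen hyperedges through `z` contained in `W` -/
def KW (z : V) (W : Finset V) : Finset (Finset V) := (K z).filter (fun e => e ⊆ W)

/-- counting the sets in which `z` is the only vertex depending on some vertex -/
theorem I_count (hK : ∀ z, ∀ e ∈ K z, e ∈ H ∧ z ∈ e) (z : V) :
    ∑ W ∈ N H z, (I H W z).card * (KW K z W).card ≤ (Z H z).card * (K z).card := by
  classical
  have h1 : ∑ W ∈ N H z, (I H W z).card * (KW K z W).card
      = ((N H z).sigma (fun W => (I H W z) ×ˢ (KW K z W))).card := by
    rw [card_sigma]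
    refine Finset.sum_congr rfl ?_
    intro W _
    rw [card_product]
  rw [h1, ← card_product]
  refine Finset.card_le_card_of_injOn
    (fun p : (Σ _ : Finset V, V × Finset V) => ((p.1.erase z).erase p.2.1, p.2.2)) ?_ ?_
  · rintro ⟨W, v, e⟩ hp
    rw [mem_coe, mem_sigma, mem_product] at hp
    simp only at hp
    obtain ⟨hW, hv, he⟩ := hp
    rw [N, mem_filter, mem_DD] at hW
    obtain ⟨hD, hzW⟩ := hW
    rw [I, mem_filter, J, mem_filter] at hv
    obtain ⟨⟨_, hdep⟩, hsole⟩ := hv
    rw [KW, mem_filter] at he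
    obtain ⟨hvW, _, hvz, hall⟩ := hdep
    rw [mem_coe, mem_product]
    refine ⟨?_, he.1⟩
    have hmem : ∀ x, x ∈ (W.erase z).erase v ↔ x ≠ v ∧ x ≠ z ∧ x ∈ W := by
      intro x; simp [mem_erase]
    change (W.erase z).erase v ∈ Z H z
    rw [Z, mem_filter, M, mem_filter, mem_DD]
    refine ⟨⟨?_, ?_⟩, ?_⟩
    · intro x hx
      rw [hmem] at hx
      have hnd : ¬ Dep H W v x := by
        intro hd
        have : x ∈ Dp H W v := by rw [Dp, mem_filter]; exact ⟨mem_univ _, hd⟩
        rw [hsole, mem_singleton] at this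
        exact hx.2.1 this
      unfold Dep at hnd
      push Not at hnd
      obtain ⟨f, hf1, hf2, hf3, hf4⟩ := hnd hvW hx.2.2 (Ne.symm hx.1)
      refine ⟨f, hf1, hf2, ?_⟩
      intro y hy
      rw [hmem]
      refine ⟨?_, ?_, hf3 hy⟩
      · rintro rfl; exact hf4 hy
      · rintro rfl; exact hf4 (hall f hf1 hy hf3)
    · rw [hmem]; simp
    · intro hD2
      obtain ⟨f, hf1, hf2, hf3⟩ := hD2 z (mem_insert_self _ _)
      have hfW : f ⊆ W := by
        intro y hy
        have := hf3 hy
        rw [mem_insert, hmem] at this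
        rcases this with h | h
        · rw [h]; exact hzW
        · exact h.2.2
      have hvf := hall f hf1 hf2 hfW
      have := hf3 hvf
      rw [mem_insert, hmem] at this
      rcases this with h | h
      · exact hvz h
      · exact h.1 rfl
  · rintro ⟨W, v, e⟩ hp ⟨W', v', e'⟩ hp' heq
    rw [mem_coe, mem_sigma, mem_product] at hp hp'
    simp only at hp hp' heq
    obtain ⟨hW, hv, he⟩ := hp
    obtain ⟨hW', hv', he'⟩ := hp'
    rw [N, mem_filter, mem_DD] at hW hW'
    rw [I, mem_filter, J, mem_filter] at hv hv'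
    obtain ⟨⟨_, hvW, _, hvz, hall⟩, _⟩ := hv
    obtain ⟨⟨_, hvW', _, hvz', hall'⟩, _⟩ := hv'
    rw [KW, mem_filter] at he he'
    rw [Prod.mk.injEq] at heq
    obtain ⟨heq1, heq2⟩ := heq
    subst heq2
    have h1 : v ∈ e := hall e (hK z e he.1).1 (hK z e he.1).2 he.2
    have h2 : v' ∈ e := hall' e (hK z e he.1).1 (hK z e he.1).2 he'.2
    have hvv : v = v' := by
      by_contra hne
      have h3 : v ∈ (W'.erase z).erase v' := by
        rw [mem_erase, mem_erase]; exact ⟨hne, hvz, he'.2 h1⟩
      rw [← heq1] at h3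
      simp at h3
    subst hvv
    have h4 : W = W' := by
      have e1 : W = insert z (insert v ((W.erase z).erase v)) := by
        rw [insert_erase, insert_erase hW.2]
        rw [mem_erase]; exact ⟨hvz, hvW⟩
      have e2 : W' = insert z (insert v ((W'.erase z).erase v)) := by
        rw [insert_erase, insert_erase hW'.2]
        rw [mem_erase]; exact ⟨hvz, hvW'⟩
      rw [e1, e2, heq1]
    subst h4
    rfl

/-- the averaging inequality -/
theorem sum_le (hK : ∀ z, ∀ e ∈ K z, e ∈ H ∧ z ∈ e) (hne : ∀ z, (K z).Nonempty)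
    (hJ : ∀ W, IsD H W → ∀ z ∈ W, (J H W z).card ≤ 2)
    (hhalf : ∀ W, IsD H W → ∀ z ∈ W, (J H W z).Nonempty → 2 * (KW K z W).card ≤ (K z).card) :
    ∑ z, (∑ e ∈ K z, (2 * (((DD H).filter (fun W => e ⊆ W)).card : ℚ) - (DD H).card))
      / (K z).card ≤ 0 := by
  classical
  have hKpos : ∀ z, (0 : ℚ) < (K z).card := fun z => by
    exact_mod_cast Finset.card_pos.mpr (hne z)
  -- rewriting each term
  have hterm : ∀ z, (∑ e ∈ K z, (2 * (((DD H).filter (fun W => e ⊆ W)).card : ℚ) - (DD H).card))
      / (K z).card = ((N H z).card : ℚ) - (M H z).card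
        - 2 * ∑ W ∈ N H z, (1 - ((KW K z W).card : ℚ) / (K z).card) := by
    intro z
    have h1 : ∑ e ∈ K z, (((DD H).filter (fun W => e ⊆ W)).card : ℚ)
        = ∑ W ∈ N H z, ((KW K z W).card : ℚ) := by
      have h2 : ∀ e ∈ K z, (((DD H).filter (fun W => e ⊆ W)).card : ℚ)
          = ∑ W ∈ N H z, (if e ⊆ W then (1 : ℚ) else 0) := by
        intro e he
        rw [Finset.sum_boole]
        congr 2
        ext W
        simp only [N, mem_filter]
        constructor
        · rintro ⟨a, b⟩; exact ⟨⟨a, b (hK z e he).2⟩, b⟩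
        · rintro ⟨⟨a, _⟩, b⟩; exact ⟨a, b⟩
      rw [Finset.sum_congr rfl h2, Finset.sum_comm]
      refine Finset.sum_congr rfl ?_
      intro W _
      rw [KW, Finset.sum_boole]
    have h3 := card_DD H z
    have h4 : ((DD H).card : ℚ) = (N H z).card + (M H z).card := by exact_mod_cast h3.symm
    rw [Finset.sum_sub_distrib, ← Finset.mul_sum, h1, h4]
    simp only [sum_const, nsmul_eq_mul, Finset.sum_sub_distrib]
    rw [← Finset.sum_div]
    have := (hKpos z).ne'
    field_simp
    ring
  rw [Finset.sum_congr rfl (fun z _ => hterm z)]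
  -- the essential pairs
  have hE : 2 * ∑ z, ((E H z).card : ℚ) ≤
      ∑ z, ∑ W ∈ N H z, (((J H W z).card : ℚ) + (I H W z).card) := by
    have h1 : ∑ z, (E H z).card = ∑ W ∈ DD H,
        ((univ : Finset V).filter (fun v => v ∈ W ∧ ¬ IsD H (W.erase v))).card := by
      have h2 : ∀ z, (E H z).card = ∑ W ∈ DD H, (if z ∈ W ∧ ¬ IsD H (W.erase z) then 1 else 0) := by
        intro z
        rw [← Finset.card_filter]
        congr 1
        ext W
        simp only [E, N, mem_filter]
        tauto
      rw [Finset.sum_congr rfl (fun z _ => h2 z), Finset.sum_comm]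
      refine Finset.sum_congr rfl ?_
      intro W _
      rw [Finset.card_filter]
    have h3 : 2 * ∑ z, (E H z).card ≤ ∑ z, ∑ W ∈ N H z, ((J H W z).card + (I H W z).card) := by
      rw [h1, Finset.mul_sum]
      have h4 : ∑ z, ∑ W ∈ N H z, ((J H W z).card + (I H W z).card)
          = ∑ W ∈ DD H, ∑ z ∈ W, ((J H W z).card + (I H W z).card) := by
        refine Finset.sum_comm' ?_
        intro z W
        simp only [N, mem_filter, mem_univ, true_and]
        exact and_comm
      rw [h4]
      exact Finset.sum_le_sum (fun W _ => ess_le H W)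
    exact_mod_cast h3
  -- the bound at each vertex
  have hpt : ∀ z, ∑ W ∈ N H z, (((J H W z).card : ℚ) + (I H W z).card) ≤
      2 * ((Z H z).card : ℚ) + 2 * (2 * ∑ W ∈ N H z, (1 - ((KW K z W).card : ℚ) / (K z).card)) := by
    intro z
    have h1 : ∑ W ∈ N H z, ((I H W z).card : ℚ) * (((KW K z W).card : ℚ) / (K z).card)
        ≤ (Z H z).card := by
      have h2 : (∑ W ∈ N H z, ((I H W z).card : ℚ) * ((KW K z W).card : ℚ))
          ≤ (Z H z).card * (K z).card := by
        exact_mod_cast I_count H K hK z
      have h3 : ∑ W ∈ N H z, ((I H W z).card : ℚ) * (((KW K z W).card : ℚ) / (K z).card)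
          = (∑ W ∈ N H z, ((I H W z).card : ℚ) * ((KW K z W).card : ℚ)) / (K z).card := by
        rw [Finset.sum_div]
        refine Finset.sum_congr rfl ?_
        intro W _
        rw [mul_div_assoc]
      rw [h3, div_le_iff₀ (hKpos z)]
      exact h2
    have h4 : ∀ W ∈ N H z, (((J H W z).card : ℚ) + (I H W z).card) ≤
        2 * (((I H W z).card : ℚ) * (((KW K z W).card : ℚ) / (K z).card))
          + 4 * (1 - ((KW K z W).card : ℚ) / (K z).card) := by
      intro W hW
      rw [N, mem_filter, mem_DD] at hW
      set t : ℚ := ((KW K z W).card : ℚ) / (K z).card with ht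
      have hIJ : (I H W z).card ≤ (J H W z).card := Finset.card_le_card (Finset.filter_subset _ _)
      have hJ2 := hJ W hW.1 z hW.2
      by_cases hemp : (J H W z).Nonempty
      · have ht2 : t ≤ 1 / 2 := by
          rw [ht, div_le_iff₀ (hKpos z)]
          have := hhalf W hW.1 z hW.2 hemp
          have h5 : (2 : ℚ) * (KW K z W).card ≤ (K z).card := by exact_mod_cast this
          linarith
        have ht0 : 0 ≤ t := by positivity
        have a1 : ((I H W z).card : ℚ) ≤ (J H W z).card := by exact_mod_cast hIJ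
        have a2 : ((J H W z).card : ℚ) ≤ 2 := by exact_mod_cast hJ2
        have a3 : (0 : ℚ) ≤ (I H W z).card := by positivity
        nlinarith
      · rw [Finset.not_nonempty_iff_eq_empty] at hemp
        have hI0 : (I H W z).card = 0 := by
          rw [hemp] at hIJ; simpa using hIJ
        rw [hI0, hemp]
        have ht1 : t ≤ 1 := by
          rw [ht, div_le_iff₀ (hKpos z), one_mul]
          exact_mod_cast Finset.card_le_card (Finset.filter_subset _ _)
        simp only [card_empty, Nat.cast_zero, zero_mul, mul_zero, zero_add, add_zero]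
        linarith
    have h5 := Finset.sum_le_sum h4
    have h6 : ∑ W ∈ N H z, (2 * (((I H W z).card : ℚ) * (((KW K z W).card : ℚ) / (K z).card))
          + 4 * (1 - ((KW K z W).card : ℚ) / (K z).card))
        = 2 * ∑ W ∈ N H z, ((I H W z).card : ℚ) * (((KW K z W).card : ℚ) / (K z).card)
          + 4 * ∑ W ∈ N H z, (1 - ((KW K z W).card : ℚ) / (K z).card) := by
      rw [Finset.sum_add_distrib, ← Finset.mul_sum, ← Finset.mul_sum]
    rw [h6] at h5
    linarith
  have hNZ : ∀ z, ((N H z).card : ℚ) + (Z H z).card ≤ (M H z).card + (E H z).card := by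
    intro z; exact_mod_cast N_Z_le H z
  have hsumNZ := Finset.sum_le_sum (fun z (_ : z ∈ (univ : Finset V)) => hNZ z)
  have hsumpt := Finset.sum_le_sum (fun z (_ : z ∈ (univ : Finset V)) => hpt z)
  simp only [Finset.sum_add_distrib, Finset.sum_sub_distrib, ← Finset.mul_sum] at hsumNZ hsumpt hE ⊢
  linarith

/-- some hyperedge is contained in at most half of the sets -/
theorem exists_edge [Nonempty V] (hK : ∀ z, ∀ e ∈ K z, e ∈ H ∧ z ∈ e) (hne : ∀ z, (K z).Nonempty)
    (hJ : ∀ W, IsD H W → ∀ z ∈ W, (J H W z).card ≤ 2)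
    (hhalf : ∀ W, IsD H W → ∀ z ∈ W, (J H W z).Nonempty → 2 * (KW K z W).card ≤ (K z).card) :
    ∃ e ∈ H, 2 * ((DD H).filter (fun W => e ⊆ W)).card ≤ (DD H).card := by
  by_contra hcon
  push Not at hcon
  have h := sum_le H K hK hne hJ hhalf
  have hpos : 0 < ∑ z, (∑ e ∈ K z, (2 * (((DD H).filter (fun W => e ⊆ W)).card : ℚ)
      - (DD H).card)) / (K z).card := by
    refine Finset.sum_pos ?_ Finset.univ_nonempty
    intro z _
    refine div_pos ?_ (by exact_mod_cast Finset.card_pos.mpr (hne z))
    refine Finset.sum_pos ?_ (hne z)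
    intro e he
    have h1 := hcon e (hK z e he).1
    have h2 : ((DD H).card : ℚ) < 2 * ((DD H).filter (fun W => e ⊆ W)).card := by exact_mod_cast h1
    linarith
  linarith

end Pool.Agent.W849.R3
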