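import Mathlib
import Pool.Agent.W849.R3Graph

set_option autoImplicit false

/-!
# Union-closed families generated by an antichain covering every element at most three times
-/

namespace Pool.Agent.W849.R3

open Finset

section local_choice

variable {V : Type*} [DecidableEq V] [Fintype V]

/-- the choice of the hyperedges at a vertex which is not covered by another vertex -/
theorem exists_K (H : Finset (Finset V)) (z : V) (hcard : ∀ e ∈ H, e.card ≤ 3)
    (hz : ∃ e ∈ H, z ∈ e) (hun : ∀ x, x ≠ z → ∃ e ∈ H, z ∈ e ∧ x ∉ e) :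
    ∃ Kz : Finset (Finset V), Kz.Nonempty ∧ (∀ e ∈ Kz, e ∈ H ∧ z ∈ e) ∧
      ∀ W : Finset V, z ∈ W → (∃ v, v ≠ z ∧ ∀ e ∈ H, z ∈ e → e ⊆ W → v ∈ e) →
        2 * (Kz.filter (fun e => e ⊆ W)).card ≤ Kz.card := by
  classical
  -- a loop at `z`
  by_cases hloop : {z} ∈ H
  · refine ⟨{{z}}, by simp, ?_, ?_⟩
    · intro e he
      rw [mem_singleton] at he
      subst he
      exact ⟨hloop, by simp⟩
    · rintro W hzW ⟨v, hv, hall⟩
      have := hall {z} hloop (by simp) (by simpa using hzW)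
      rw [mem_singleton] at this
      exact absurd this hv
  -- two hyperedges which meet in `z` only
  by_cases hdis : ∃ e₁ ∈ H, ∃ e₂ ∈ H, z ∈ e₁ ∧ z ∈ e₂ ∧ ∀ x, x ∈ e₁ → x ∈ e₂ → x = z
  · obtain ⟨e₁, h1, e₂, h2, hz1, hz2, hint⟩ := hdis
    have hne : e₁ ≠ e₂ := by
      rintro rfl
      apply hloop
      have : e₁ = {z} := by
        ext x
        rw [mem_singleton]
        exact ⟨fun hx => hint x hx hx, fun hx => by rw [hx]; exact hz1⟩
      rw [← this]; exact h1
    refine ⟨{e₁, e₂}, by simp, ?_, ?_⟩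
    · intro e he
      rw [mem_insert, mem_singleton] at he
      rcases he with rfl | rfl
      · exact ⟨h1, hz1⟩
      · exact ⟨h2, hz2⟩
    · rintro W hzW ⟨v, hv, hall⟩
      rw [card_pair hne]
      have hle : (({e₁, e₂} : Finset (Finset V)).filter (fun e => e ⊆ W)).card ≤ 1 := by
        rw [Finset.card_le_one]
        intro a ha b hb
        rw [mem_filter, mem_insert, mem_singleton] at ha hb
        by_contra hab
        have hboth : e₁ ⊆ W ∧ e₂ ⊆ W := by
          rcases ha.1 with rfl | rfl <;> rcases hb.1 with rfl | rfl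
          · exact absurd rfl hab
          · exact ⟨ha.2, hb.2⟩
          · exact ⟨hb.2, ha.2⟩
          · exact absurd rfl hab
        exact hv (hint v (hall e₁ h1 hz1 hboth.1) (hall e₂ h2 hz2 hboth.2))
      omega
  -- a triangle
  push Not at hdis
  have hpair : ∀ e₁ ∈ H, ∀ e₂ ∈ H, z ∈ e₁ → z ∈ e₂ → ∃ x, x ∈ e₁ ∧ x ∈ e₂ ∧ x ≠ z := by
    intro e₁ h1 e₂ h2 hz1 hz2
    obtain ⟨x, hx⟩ := hdis e₁ h1 e₂ h2 hz1 hz2
    exact ⟨x, hx⟩
  obtain ⟨e₁, h1, hz1⟩ := hz
  obtain ⟨a, ha1, _, haz⟩ := hpair e₁ h1 e₁ h1 hz1 hz1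
  obtain ⟨e₂, h2, hz2, ha2⟩ := hun a haz
  obtain ⟨b, hb1, hb2, hbz⟩ := hpair e₁ h1 e₂ h2 hz1 hz2
  have hab : a ≠ b := by rintro rfl; exact ha2 hb2
  obtain ⟨e₃, h3, hz3, hb3⟩ := hun b hbz
  obtain ⟨c, hc2, hc3, hcz⟩ := hpair e₂ h2 e₃ h3 hz2 hz3
  have hbc : b ≠ c := by rintro rfl; exact hb3 hc3
  have hac : a ≠ c := by rintro rfl; exact ha2 hc2
  have key : ∀ (e : Finset V) (x y : V), e ∈ H → z ∈ e → x ∈ e → y ∈ e → x ≠ z → y ≠ z → x ≠ y →
      e = {z, x, y} := by
    intro e x y he hze hx hy hxz hyz hxy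
    symm
    apply Finset.eq_of_subset_of_card_le
    · intro w hw
      simp only [mem_insert, mem_singleton] at hw
      rcases hw with rfl | rfl | rfl
      · exact hze
      · exact hx
      · exact hy
    · refine le_trans (hcard e he) ?_
      rw [Finset.card_eq_three.mpr ⟨z, x, y, hxz.symm, hyz.symm, hxy, rfl⟩]
  have E1 := key e₁ a b h1 hz1 ha1 hb1 haz hbz hab
  have E2 := key e₂ b c h2 hz2 hb2 hc2 hbz hcz hbc
  have ha3 : a ∈ e₃ := by
    obtain ⟨x, hx1, hx3, hxz⟩ := hpair e₁ h1 e₃ h3 hz1 hz3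
    rw [E1] at hx1
    simp only [mem_insert, mem_singleton] at hx1
    rcases hx1 with h | h | h
    · exact absurd h hxz
    · rw [← h]; exact hx3
    · rw [h] at hx3; exact absurd hx3 hb3
  have E3 := key e₃ a c h3 hz3 ha3 hc3 haz hcz hac
  have n12 : e₁ ≠ e₂ := by rintro rfl; exact ha2 ha1
  have n13 : e₁ ≠ e₃ := by rintro rfl; exact hb3 hb1
  have n23 : e₂ ≠ e₃ := by rintro rfl; exact hb3 hb2
  refine ⟨{e₁, e₂, e₃}, by simp, ?_, ?_⟩
  · intro e he
    simp only [mem_insert, mem_singleton] at he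
    rcases he with rfl | rfl | rfl
    · exact ⟨h1, hz1⟩
    · exact ⟨h2, hz2⟩
    · exact ⟨h3, hz3⟩
  · rintro W hzW ⟨v, hv, hall⟩
    rw [Finset.card_eq_three.mpr ⟨e₁, e₂, e₃, n12, n13, n23, rfl⟩]
    have hnot : ¬ (a ∈ W ∧ b ∈ W ∧ c ∈ W) := by
      rintro ⟨haW, hbW, hcW⟩
      have s1 : e₁ ⊆ W := by
        rw [E1]; intro x hx; simp only [mem_insert, mem_singleton] at hx
        rcases hx with rfl | rfl | rfl <;> assumption
      have s2 : e₂ ⊆ W := by
        rw [E2]; intro x hx; simp only [mem_insert, mem_singleton] at hx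
        rcases hx with rfl | rfl | rfl <;> assumption
      have s3 : e₃ ⊆ W := by
        rw [E3]; intro x hx; simp only [mem_insert, mem_singleton] at hx
        rcases hx with rfl | rfl | rfl <;> assumption
      have v1 := hall e₁ h1 hz1 s1
      have v2 := hall e₂ h2 hz2 s2
      have v3 := hall e₃ h3 hz3 s3
      rw [E1] at v1
      simp only [mem_insert, mem_singleton] at v1
      rcases v1 with h | h | h
      · exact hv h
      · rw [h] at v2; exact ha2 v2
      · rw [h] at v3; exact hb3 v3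
    have hle : (({e₁, e₂, e₃} : Finset (Finset V)).filter (fun e => e ⊆ W)).card ≤ 1 := by
      rw [Finset.card_le_one]
      intro p hp q hq
      rw [mem_filter] at hp hq
      simp only [mem_insert, mem_singleton] at hp hq
      by_contra hpq
      apply hnot
      rcases hp.1 with rfl | rfl | rfl <;> rcases hq.1 with rfl | rfl | rfl
      · exact absurd rfl hpq
      · exact ⟨hp.2 ha1, hp.2 hb1, hq.2 hc2⟩
      · exact ⟨hp.2 ha1, hp.2 hb1, hq.2 hc3⟩
      · exact ⟨hq.2 ha1, hq.2 hb1, hp.2 hc2⟩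
      · exact absurd rfl hpq
      · exact ⟨hq.2 ha3, hp.2 hb2, hp.2 hc2⟩
      · exact ⟨hq.2 ha1, hq.2 hb1, hp.2 hc3⟩
      · exact ⟨hp.2 ha3, hq.2 hb2, hq.2 hc2⟩
      · exact absurd rfl hpq
    omega

/-- If all hyperedges have at most three vertices and no vertex is covered by another one, some
hyperedge is contained in at most half of the unions of hyperedges. -/
theorem three [Nonempty V] (H : Finset (Finset V)) (hcard : ∀ e ∈ H, e.card ≤ 3)
    (hz : ∀ z, ∃ e ∈ H, z ∈ e) (hun : ∀ z x, x ≠ z → ∃ e ∈ H, z ∈ e ∧ x ∉ e) :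
    ∃ e ∈ H, 2 * ((DD H).filter (fun W => e ⊆ W)).card ≤ (DD H).card := by
  classical
  have hex := fun z => exists_K H z hcard (hz z) (hun z)
  choose K hKne hK hKhalf using hex
  refine exists_edge H K hK hKne ?_ ?_
  · intro W hW z hzW
    obtain ⟨e, he, hze, heW⟩ := hW z hzW
    have hsub : J H W z ⊆ e.erase z := by
      intro v hv
      rw [J, mem_filter] at hv
      obtain ⟨_, _, _, hvz, hall⟩ := hv
      rw [mem_erase]
      exact ⟨hvz, hall e he hze heW⟩
    have h1 := card_le_card hsub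
    rw [card_erase_of_mem hze] at h1
    have h2 := hcard e he
    omega
  · intro W _ z hzW hJ
    obtain ⟨v, hv⟩ := hJ
    rw [J, mem_filter] at hv
    obtain ⟨_, _, _, hvz, hall⟩ := hv
    exact hKhalf z W hzW ⟨v, hvz, hall⟩

end local_choice

/-- the generators different from the empty set -/
abbrev Gen (G : Finset (Finset ℕ)) : Type := {g : Finset ℕ // g ∈ G.erase ∅}

/-- the generators containing `i` -/
def hyp (G : Finset (Finset ℕ)) (i : ℕ) : Finset (Gen G) := univ.filter (fun g => i ∈ g.1)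

/-- the hyperedges -/
def HH (G : Finset (Finset ℕ)) : Finset (Finset (Gen G)) := (G.sup id).image (hyp G)

/-- the generators not contained in `S` -/
def phi (G : Finset (Finset ℕ)) (S : Finset ℕ) : Finset (Gen G) :=
  univ.filter (fun g => ¬ g.1 ⊆ S)

/-- the union of the generators outside `W` -/
def psi (G : Finset (Finset ℕ)) (W : Finset (Gen G)) : Finset ℕ :=
  (univ \ W).sup (fun g => g.1)

theorem mem_hyp {G : Finset (Finset ℕ)} {i : ℕ} {g : Gen G} : g ∈ hyp G i ↔ i ∈ g.1 := by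
  simp [hyp]

theorem hyp_mem {G : Finset (Finset ℕ)} {i : ℕ} {g : Gen G} (h : i ∈ g.1) : hyp G i ∈ HH G := by
  refine mem_image_of_mem _ ?_
  have := Finset.le_sup (f := id) (mem_of_mem_erase g.2)
  exact this h

theorem phi_isD (G : Finset (Finset ℕ)) (S : Finset ℕ) : IsD (HH G) (phi G S) := by
  classical
  intro g hg
  simp only [phi, mem_filter, mem_univ, true_and] at hg
  rw [Finset.not_subset] at hg
  obtain ⟨i, hi, hiS⟩ := hg
  refine ⟨hyp G i, hyp_mem hi, mem_hyp.mpr hi, ?_⟩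
  intro h hh
  rw [mem_hyp] at hh
  simp only [phi, mem_filter, mem_univ, true_and]
  exact fun hsub => hiS (hsub hh)

theorem phi_inj (A G : Finset (Finset ℕ))
    (hgen : ∀ S ∈ A, ∀ i ∈ S, ∃ g ∈ G, i ∈ g ∧ g ⊆ S) :
    Set.InjOn (phi G) (A : Set (Finset ℕ)) := by
  have key : ∀ S ∈ A, ∀ S', phi G S = phi G S' → S ⊆ S' := by
    intro S hS S' heq i hi
    obtain ⟨g, hg, hig, hgS⟩ := hgen S hS i hi
    have hmem : g ∈ G.erase ∅ := by
      rw [mem_erase]
      refine ⟨?_, hg⟩
      rintro rfl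
      simp at hig
    have h1 : (⟨g, hmem⟩ : Gen G) ∉ phi G S := by
      simp only [phi, mem_filter, mem_univ, true_and, not_not]
      exact hgS
    rw [heq] at h1
    simp only [phi, mem_filter, mem_univ, true_and, not_not] at h1
    exact h1 hig
  intro S hS S' hS' heq
  exact Finset.Subset.antisymm (key S hS S' heq) (key S' hS' S heq.symm)

theorem phi_psi (G : Finset (Finset ℕ)) (W : Finset (Gen G)) (hW : IsD (HH G) W) :
    phi G (psi G W) = W := by
  classical
  ext g
  simp only [phi, mem_filter, mem_univ, true_and]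
  constructor
  · intro h
    by_contra hcon
    apply h
    exact Finset.le_sup (f := fun g : Gen G => g.1) (by simp [hcon])
  · intro hg hsub
    obtain ⟨e, he, hge, heW⟩ := hW g hg
    rw [HH, mem_image] at he
    obtain ⟨i, _, rfl⟩ := he
    rw [mem_hyp] at hge
    have hi : i ∈ psi G W := hsub hge
    unfold psi at hi
    rw [Finset.mem_sup] at hi
    obtain ⟨k, hk, hik⟩ := hi
    simp only [mem_sdiff, mem_univ, true_and] at hk
    exact hk (heW (mem_hyp.mpr hik))

theorem core (A : Finset (Finset ℕ)) (hU : ∀ X ∈ A, ∀ Y ∈ A, X ∪ Y ∈ A) (h0 : ∅ ∈ A)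
    (G : Finset (Finset ℕ)) (hG : ∀ g ∈ G, g ∈ A)
    (hgen : ∀ S ∈ A, ∀ i ∈ S, ∃ g ∈ G, i ∈ g ∧ g ⊆ S)
    (hH : ∃ e ∈ HH G, 2 * ((DD (HH G)).filter (fun W => e ⊆ W)).card ≤ (DD (HH G)).card) :
    ∃ i : ℕ, 2 * (A.filter (fun X => i ∉ X)).card ≤ A.card := by
  classical
  obtain ⟨e, he, hle⟩ := hH
  rw [HH, mem_image] at he
  obtain ⟨i, _, rfl⟩ := he
  refine ⟨i, ?_⟩
  have h1 : (A.filter (fun X => i ∉ X)).card ≤
      ((DD (HH G)).filter (fun W => hyp G i ⊆ W)).card := by
    refine Finset.card_le_card_of_injOn (phi G) ?_ ?_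
    · intro X hX
      rw [mem_coe, mem_filter] at hX
      rw [mem_coe, mem_filter, mem_DD]
      refine ⟨phi_isD G X, ?_⟩
      intro g hg
      rw [mem_hyp] at hg
      simp only [phi, mem_filter, mem_univ, true_and]
      exact fun h => hX.2 (h hg)
    · exact (phi_inj A G hgen).mono (by intro X hX; rw [mem_coe, mem_filter] at hX; exact hX.1)
  have h2 : (DD (HH G)).card ≤ A.card := by
    refine Finset.card_le_card_of_injOn (psi G) ?_ ?_
    · intro W _
      rw [mem_coe]
      unfold psi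
      refine Finset.sup_induction (p := fun S => S ∈ A) h0 ?_ ?_
      · intro X hX Y hY
        exact hU X hX Y hY
      · intro g _
        exact hG _ (mem_of_mem_erase g.2)
    · intro W hW W' hW' heq
      rw [mem_coe, mem_DD] at hW hW'
      rw [← phi_psi G W hW, ← phi_psi G W' hW', heq]
  omega

/-- from families containing the empty set to all families -/
theorem frankl_of (A : Finset (Finset ℕ)) (hU : ∀ X ∈ A, ∀ Y ∈ A, X ∪ Y ∈ A) (hne : A ≠ {∅})
    (G : Finset (Finset ℕ)) (hG : G ⊆ A)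
    (hgen : ∀ S ∈ A, ∀ i ∈ S, ∃ g ∈ G, i ∈ g ∧ g ⊆ S)
    (hH : Nonempty (Gen G) →
      ∃ e ∈ HH G, 2 * ((DD (HH G)).filter (fun W => e ⊆ W)).card ≤ (DD (HH G)).card) :
    ∃ i : ℕ, A.card ≤ 2 * (A.filter (fun X => i ∈ X)).card := by
  classical
  by_cases hA : ∀ S ∈ A, S = ∅
  · have : A = ∅ := by
      rcases Finset.eq_empty_or_nonempty A with h | ⟨S, hS⟩
      · exact h
      · exfalso
        apply hne
        rw [Finset.eq_singleton_iff_unique_mem]
        refine ⟨?_, hA⟩
        rw [← hA S hS]; exact hS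
    exact ⟨0, by rw [this]; simp⟩
  · push Not at hA
    obtain ⟨S, hS, j, hj⟩ := hA
    obtain ⟨g0, hg0, hjg0, _⟩ := hgen S hS j hj
    have hmem : g0 ∈ G.erase ∅ := by
      rw [mem_erase]
      refine ⟨?_, hg0⟩
      rintro rfl
      simp at hjg0
    have hV : Nonempty (Gen G) := ⟨⟨g0, hmem⟩⟩
    have hU' : ∀ X ∈ insert ∅ A, ∀ Y ∈ insert ∅ A, X ∪ Y ∈ insert ∅ A := by
      intro X hX Y hY
      rw [mem_insert] at hX hY
      rcases hX with rfl | hX
      · rw [empty_union, mem_insert]; exact hY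
      · rcases hY with rfl | hY
        · rw [union_empty, mem_insert]; exact Or.inr hX
        · rw [mem_insert]; exact Or.inr (hU X hX Y hY)
    have hgen' : ∀ S ∈ insert ∅ A, ∀ i ∈ S, ∃ g ∈ G, i ∈ g ∧ g ⊆ S := by
      intro X hX i hi
      rw [mem_insert] at hX
      rcases hX with rfl | hX
      · simp at hi
      · exact hgen X hX i hi
    obtain ⟨i, hi⟩ := core (insert ∅ A) hU' (mem_insert_self _ _) G
      (fun g hg => mem_insert_of_mem (hG hg)) hgen' (hH hV)
    refine ⟨i, ?_⟩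
    have hsplit := Finset.card_filter_add_card_filter_not (s := A) (fun X => i ∈ X)
    by_cases h0 : ∅ ∈ A
    · rw [Finset.insert_eq_of_mem h0] at hi
      omega
    · rw [Finset.filter_insert, if_pos (by simp), Finset.card_insert_of_notMem h0,
        Finset.card_insert_of_notMem (by simp [h0])] at hi
      omega

/-- Frankl's conjecture for the union-closed families generated by a family `G` no nonempty member
of which is contained in another one and no four members of which have a common element. -/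
theorem frankl_three (A : Finset (Finset ℕ)) (hU : ∀ X ∈ A, ∀ Y ∈ A, X ∪ Y ∈ A) (hne : A ≠ {∅})
    (G : Finset (Finset ℕ)) (hG : G ⊆ A)
    (hgen : ∀ S ∈ A, ∀ i ∈ S, ∃ g ∈ G, i ∈ g ∧ g ⊆ S)
    (hanti : ∀ g ∈ G, ∀ h ∈ G, g ≠ ∅ → g ⊆ h → g = h)
    (hthree : ∀ i, (G.filter (fun g => i ∈ g)).card ≤ 3) :
    ∃ i : ℕ, A.card ≤ 2 * (A.filter (fun X => i ∈ X)).card := by
  classical
  refine frankl_of A hU hne G hG hgen ?_
  intro hV
  have hlow : ∀ z : Gen G, z.1 ≠ ∅ ∧ z.1 ∈ G := fun z => mem_erase.mp z.2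
  refine three (HH G) ?_ ?_ ?_
  · intro e he
    rw [HH, mem_image] at he
    obtain ⟨i, _, rfl⟩ := he
    refine le_trans ?_ (hthree i)
    refine Finset.card_le_card_of_injOn (fun g : Gen G => g.1) ?_ ?_
    · intro g hg
      rw [mem_coe, mem_hyp] at hg
      rw [mem_coe, mem_filter]
      exact ⟨(hlow g).2, hg⟩
    · intro g _ h _ heq
      exact Subtype.ext heq
  · intro z
    obtain ⟨i, hi⟩ := Finset.nonempty_iff_ne_empty.mpr (hlow z).1
    exact ⟨hyp G i, hyp_mem hi, mem_hyp.mpr hi⟩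
  · intro z x hxz
    have hns : ¬ z.1 ⊆ x.1 := by
      intro hsub
      exact hxz (Subtype.ext (hanti z.1 (hlow z).2 x.1 (hlow x).2 (hlow z).1 hsub)).symm
    rw [Finset.not_subset] at hns
    obtain ⟨i, hi, hix⟩ := hns
    refine ⟨hyp G i, hyp_mem hi, mem_hyp.mpr hi, ?_⟩
    rw [mem_hyp]
    exact hix

end Pool.Agent.W849.R3
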