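import Mathlib
import Pool.Agent.W849.R3Graph
import Pool.Agent.W849.R3Family

set_option autoImplicit false

/-!
# The strict form of the averaging inequality
-/

namespace Pool.Agent.W849.R3

open Finset

section graph

variable {V : Type*} [DecidableEq V] [Fintype V] (H : Finset (Finset V))
variable (K : V → Finset (Finset V))

/-- the counting inequality is strict if some chosen hyperedge does not have two elements -/
theorem I_count_lt (hK : ∀ z, ∀ e ∈ K z, e ∈ H ∧ z ∈ e) (z : V) (hz : {z} ∉ H)
    (e0 : Finset V) (he0 : e0 ∈ K z) (hcard : e0.card ≠ 2) :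
    ∑ W ∈ N H z, (I H W z).card * (KW K z W).card < (Z H z).card * (K z).card := by
  classical
  have h1 : ∑ W ∈ N H z, (I H W z).card * (KW K z W).card
      = ((N H z).sigma (fun W => (I H W z) ×ˢ (KW K z W))).card := by
    rw [card_sigma]
    refine Finset.sum_congr rfl ?_
    intro W _
    rw [card_product]
  rw [h1, ← card_product]
  have hmemZ : (∅ : Finset V) ∈ Z H z := by
    rw [Z, mem_filter, M, mem_filter, mem_DD]
    refine ⟨⟨?_, by simp⟩, ?_⟩
    · intro x hx; simp at hx
    · intro hD
      obtain ⟨f, hf1, hf2, hf3⟩ := hD z (mem_insert_self _ _)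
      apply hz
      have : f = {z} := by
        apply Finset.Subset.antisymm
        · simpa using hf3
        · simpa using hf2
      rw [← this]; exact hf1
  have hmem0 : ((∅ : Finset V), e0) ∈ Z H z ×ˢ K z := by
    rw [mem_product]; exact ⟨hmemZ, he0⟩
  have hlt : ((Z H z ×ˢ K z).erase ((∅ : Finset V), e0)).card < (Z H z ×ˢ K z).card :=
    Finset.card_erase_lt_of_mem hmem0
  refine lt_of_le_of_lt ?_ hlt
  refine Finset.card_le_card_of_injOn
    (fun p : (Σ _ : Finset V, V × Finset V) => ((p.1.erase z).erase p.2.1, p.2.2)) ?_ ?_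
  · rintro ⟨W, v, e⟩ hp
    rw [mem_coe, mem_sigma, mem_product] at hp
    simp only at hp
    obtain ⟨hW, hv, he⟩ := hp
    rw [N, mem_filter, mem_DD] at hW
    obtain ⟨hD, hzW⟩ := hW
    rw [I, mem_filter, J, mem_filter] at hv
    obtain ⟨⟨_, hdep⟩, hsole⟩ := hv
    rw [KW, mem_filter] at he
    obtain ⟨hvW, _, hvz, hall⟩ := hdep
    rw [mem_coe, mem_erase, mem_product]
    have hmem : ∀ x, x ∈ (W.erase z).erase v ↔ x ≠ v ∧ x ≠ z ∧ x ∈ W := by
      intro x; simp [mem_erase]
    refine ⟨?_, ?_, he.1⟩
    · intro heq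
      rw [Prod.mk.injEq] at heq
      obtain ⟨heq1, heq2⟩ := heq
      simp only at heq1 heq2
      subst heq2
      apply hcard
      have hve : v ∈ e := hall e (hK z e he.1).1 (hK z e he.1).2 he.2
      have : e = {z, v} := by
        ext x
        rw [mem_insert, mem_singleton]
        constructor
        · intro hx
          by_contra hcon
          push Not at hcon
          have : x ∈ (W.erase z).erase v := (hmem x).mpr ⟨hcon.2, hcon.1, he.2 hx⟩
          rw [heq1] at this
          simp at this
        · rintro (h | h)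
          · rw [h]; exact (hK z e he.1).2
          · rw [h]; exact hve
      rw [this, card_pair hvz.symm]
    change (W.erase z).erase v ∈ Z H z
    rw [Z, mem_filter, M, mem_filter, mem_DD]
    refine ⟨⟨?_, ?_⟩, ?_⟩
    · intro x hx
      rw [hmem] at hx
      have hnd : ¬ Dep H W v x := by
        intro hd
        have : x ∈ Dp H W v := by rw [Dp, mem_filter]; exact ⟨mem_univ _, hd⟩
        rw [hsole, mem_singleton] at this
        exact hx.2.1 this
      unfold Dep at hnd
      push Not at hnd
      obtain ⟨f, hf1, hf2, hf3, hf4⟩ := hnd hvW hx.2.2 (Ne.symm hx.1)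
      refine ⟨f, hf1, hf2, ?_⟩
      intro y hy
      rw [hmem]
      refine ⟨?_, ?_, hf3 hy⟩
      · rintro rfl; exact hf4 hy
      · rintro rfl; exact hf4 (hall f hf1 hy hf3)
    · rw [hmem]; simp
    · intro hD2
      obtain ⟨f, hf1, hf2, hf3⟩ := hD2 z (mem_insert_self _ _)
      have hfW : f ⊆ W := by
        intro y hy
        have := hf3 hy
        rw [mem_insert, hmem] at this
        rcases this with h | h
        · rw [h]; exact hzW
        · exact h.2.2
      have hvf := hall f hf1 hf2 hfW
      have := hf3 hvf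
      rw [mem_insert, hmem] at this
      rcases this with h | h
      · exact hvz h
      · exact h.1 rfl
  · rintro ⟨W, v, e⟩ hp ⟨W', v', e'⟩ hp' heq
    rw [mem_coe, mem_sigma, mem_product] at hp hp'
    simp only at hp hp' heq
    obtain ⟨hW, hv, he⟩ := hp
    obtain ⟨hW', hv', he'⟩ := hp'
    rw [N, mem_filter, mem_DD] at hW hW'
    rw [I, mem_filter, J, mem_filter] at hv hv'
    obtain ⟨⟨_, hvW, _, hvz, hall⟩, _⟩ := hv
    obtain ⟨⟨_, hvW', _, hvz', hall'⟩, _⟩ := hv'
    rw [KW, mem_filter] at he he'
    rw [Prod.mk.injEq] at heq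
    obtain ⟨heq1, heq2⟩ := heq
    subst heq2
    have h1 : v ∈ e := hall e (hK z e he.1).1 (hK z e he.1).2 he.2
    have h2 : v' ∈ e := hall' e (hK z e he.1).1 (hK z e he.1).2 he'.2
    have hvv : v = v' := by
      by_contra hne
      have h3 : v ∈ (W'.erase z).erase v' := by
        rw [mem_erase, mem_erase]; exact ⟨hne, hvz, he'.2 h1⟩
      rw [← heq1] at h3
      simp at h3
    subst hvv
    have h4 : W = W' := by
      have e1 : W = insert z (insert v ((W.erase z).erase v)) := by
        rw [insert_erase, insert_erase hW.2]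
        rw [mem_erase]; exact ⟨hvz, hvW⟩
      have e2 : W' = insert z (insert v ((W'.erase z).erase v)) := by
        rw [insert_erase, insert_erase hW'.2]
        rw [mem_erase]; exact ⟨hvz, hvW'⟩
      rw [e1, e2, heq1]
    subst h4
    rfl

/-- the bound at each vertex -/
theorem pt_le (hne : ∀ z, (K z).Nonempty)
    (hJ : ∀ W, IsD H W → ∀ z ∈ W, (J H W z).card ≤ 2)
    (hhalf : ∀ W, IsD H W → ∀ z ∈ W, (J H W z).Nonempty → 2 * (KW K z W).card ≤ (K z).card)
    (z : V) (W : Finset V) (hW : W ∈ N H z) :
    (((J H W z).card : ℚ) + (I H W z).card) ≤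
        2 * (((I H W z).card : ℚ) * (((KW K z W).card : ℚ) / (K z).card))
          + 4 * (1 - ((KW K z W).card : ℚ) / (K z).card) := by
  have hKpos : ∀ z, (0 : ℚ) < (K z).card := fun z => by
    exact_mod_cast Finset.card_pos.mpr (hne z)
  rw [N, mem_filter, mem_DD] at hW
  set t : ℚ := ((KW K z W).card : ℚ) / (K z).card with ht
  have hIJ : (I H W z).card ≤ (J H W z).card := Finset.card_le_card (Finset.filter_subset _ _)
  have hJ2 := hJ W hW.1 z hW.2
  by_cases hemp : (J H W z).Nonempty
  · have ht2 : t ≤ 1 / 2 := by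
      rw [ht, div_le_iff₀ (hKpos z)]
      have := hhalf W hW.1 z hW.2 hemp
      have h5 : (2 : ℚ) * (KW K z W).card ≤ (K z).card := by exact_mod_cast this
      linarith
    have ht0 : 0 ≤ t := by positivity
    have a1 : ((I H W z).card : ℚ) ≤ (J H W z).card := by exact_mod_cast hIJ
    have a2 : ((J H W z).card : ℚ) ≤ 2 := by exact_mod_cast hJ2
    have a3 : (0 : ℚ) ≤ (I H W z).card := by positivity
    nlinarith
  · rw [Finset.not_nonempty_iff_eq_empty] at hemp
    have hI0 : (I H W z).card = 0 := by
      rw [hemp] at hIJ; simpa using hIJ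
    rw [hI0, hemp]
    have ht1 : t ≤ 1 := by
      rw [ht, div_le_iff₀ (hKpos z), one_mul]
      exact_mod_cast Finset.card_le_card (Finset.filter_subset _ _)
    simp only [card_empty, Nat.cast_zero, zero_mul, mul_zero, zero_add, add_zero]
    linarith

/-- the bound at a vertex without a loop is strict -/
theorem pt_lt (hK : ∀ z, ∀ e ∈ K z, e ∈ H ∧ z ∈ e) (hne : ∀ z, (K z).Nonempty)
    (hJ : ∀ W, IsD H W → ∀ z ∈ W, (J H W z).card ≤ 2)
    (hhalf : ∀ W, IsD H W → ∀ z ∈ W, (J H W z).Nonempty → 2 * (KW K z W).card ≤ (K z).card)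
    (z : V) (hz : {z} ∉ H) :
    ∑ W ∈ N H z, (((J H W z).card : ℚ) + (I H W z).card) <
      2 * ((Z H z).card : ℚ) + 2 * (2 * ∑ W ∈ N H z, (1 - ((KW K z W).card : ℚ) / (K z).card)) := by
  classical
  have hKpos : (0 : ℚ) < (K z).card := by
    exact_mod_cast Finset.card_pos.mpr (hne z)
  have h3 : ∑ W ∈ N H z, ((I H W z).card : ℚ) * (((KW K z W).card : ℚ) / (K z).card)
      = (∑ W ∈ N H z, ((I H W z).card : ℚ) * ((KW K z W).card : ℚ)) / (K z).card := by
    rw [Finset.sum_div]
    refine Finset.sum_congr rfl ?_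
    intro W _
    rw [mul_div_assoc]
  have h6 : ∑ W ∈ N H z, (2 * (((I H W z).card : ℚ) * (((KW K z W).card : ℚ) / (K z).card))
        + 4 * (1 - ((KW K z W).card : ℚ) / (K z).card))
      = 2 * ∑ W ∈ N H z, ((I H W z).card : ℚ) * (((KW K z W).card : ℚ) / (K z).card)
        + 4 * ∑ W ∈ N H z, (1 - ((KW K z W).card : ℚ) / (K z).card) := by
    rw [Finset.sum_add_distrib, ← Finset.mul_sum, ← Finset.mul_sum]
  by_cases hc : ∃ e0 ∈ K z, e0.card ≠ 2
  · obtain ⟨e0, he0, hcard⟩ := hc
    have h1 : ∑ W ∈ N H z, ((I H W z).card : ℚ) * (((KW K z W).card : ℚ) / (K z).card)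
        < (Z H z).card := by
      have h2 : (∑ W ∈ N H z, ((I H W z).card : ℚ) * ((KW K z W).card : ℚ))
          < (Z H z).card * (K z).card := by
        exact_mod_cast I_count_lt H K hK z hz e0 he0 hcard
      rw [h3, div_lt_iff₀ hKpos]
      exact h2
    have h5 := Finset.sum_le_sum (fun W hW => pt_le H K hne hJ hhalf z W hW)
    rw [h6] at h5
    linarith
  · push Not at hc
    have h1 : ∑ W ∈ N H z, ((I H W z).card : ℚ) * (((KW K z W).card : ℚ) / (K z).card)
        ≤ (Z H z).card := by
      have h2 : (∑ W ∈ N H z, ((I H W z).card : ℚ) * ((KW K z W).card : ℚ))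
          ≤ (Z H z).card * (K z).card := by
        exact_mod_cast I_count H K hK z
      rw [h3, div_le_iff₀ hKpos]
      exact h2
    have h5 : ∑ W ∈ N H z, (((J H W z).card : ℚ) + (I H W z).card) <
        ∑ W ∈ N H z, (2 * (((I H W z).card : ℚ) * (((KW K z W).card : ℚ) / (K z).card))
        + 4 * (1 - ((KW K z W).card : ℚ) / (K z).card)) := by
      obtain ⟨e, he⟩ := hne z
      have hez := (hK z e he).2
      have heH := (hK z e he).1
      have heN : e ∈ N H z := by
        rw [N, mem_filter, mem_DD]
        exact ⟨fun v hv => ⟨e, heH, hv, Finset.Subset.refl _⟩, hez⟩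
      refine Finset.sum_lt_sum (fun W hW => pt_le H K hne hJ hhalf z W hW) ⟨e, heN, ?_⟩
      have hcard := hc e he
      -- the other vertex of `e`
      obtain ⟨v, hv⟩ : ∃ v, e = {z, v} ∧ v ≠ z := by
        obtain ⟨a, b, hab, hE⟩ := Finset.card_eq_two.mp hcard
        rw [hE, mem_insert, mem_singleton] at hez
        rcases hez with rfl | rfl
        · exact ⟨b, hE, hab.symm⟩
        · exact ⟨a, by rw [hE, Finset.pair_comm], hab⟩
      obtain ⟨hE, hvz⟩ := hv
      have hJe : J H e z = {v} := by
        ext w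
        rw [J, mem_filter, mem_singleton]
        constructor
        · rintro ⟨_, hwe, _, hwz, _⟩
          rw [hE, mem_insert, mem_singleton] at hwe
          rcases hwe with h | h
          · exact absurd h hwz
          · exact h
        · rintro rfl
          refine ⟨mem_univ _, by rw [hE]; simp, hez, hvz, ?_⟩
          intro f hf hzf hfe
          by_contra hwf
          apply hz
          have : f = {z} := by
            apply Finset.Subset.antisymm
            · intro x hx
              have := hfe hx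
              rw [hE, mem_insert, mem_singleton] at this
              rw [mem_singleton]
              rcases this with h | h
              · exact h
              · rw [h] at hx; exact absurd hx hwf
            · simpa using hzf
          rw [← this]; exact hf
      have heD : IsD H e := fun v hv => ⟨e, heH, hv, Finset.Subset.refl _⟩
      have hh := hhalf e heD z hez (by rw [hJe]; simp)
      have hIJ : (I H e z).card ≤ (J H e z).card := Finset.card_le_card (Finset.filter_subset _ _)
      rw [hJe, card_singleton] at hIJ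
      rw [hJe, card_singleton]
      set t : ℚ := ((KW K z e).card : ℚ) / (K z).card with ht
      have ht2 : t ≤ 1 / 2 := by
        rw [ht, div_le_iff₀ hKpos]
        have h7 : (2 : ℚ) * (KW K z e).card ≤ (K z).card := by exact_mod_cast hh
        linarith
      have ht3 : 0 < t := by
        rw [ht]
        refine div_pos ?_ hKpos
        have : 0 < (KW K z e).card := by
          rw [Finset.card_pos]
          exact ⟨e, by rw [KW, mem_filter]; exact ⟨he, Finset.Subset.refl _⟩⟩
        exact_mod_cast this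
      have a1 : ((I H e z).card : ℚ) ≤ 1 := by exact_mod_cast hIJ
      have a3 : (0 : ℚ) ≤ (I H e z).card := by positivity
      push_cast
      nlinarith
    rw [h6] at h5
    linarith

/-- the strict averaging inequality -/
theorem sum_lt (hK : ∀ z, ∀ e ∈ K z, e ∈ H ∧ z ∈ e) (hne : ∀ z, (K z).Nonempty)
    (hJ : ∀ W, IsD H W → ∀ z ∈ W, (J H W z).card ≤ 2)
    (hhalf : ∀ W, IsD H W → ∀ z ∈ W, (J H W z).Nonempty → 2 * (KW K z W).card ≤ (K z).card)
    (z0 : V) (hz0 : {z0} ∉ H) :
    ∑ z, (∑ e ∈ K z, (2 * (((DD H).filter (fun W => e ⊆ W)).card : ℚ) - (DD H).card))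
      / (K z).card < 0 := by
  classical
  have hKpos : ∀ z, (0 : ℚ) < (K z).card := fun z => by
    exact_mod_cast Finset.card_pos.mpr (hne z)
  -- rewriting each term
  have hterm : ∀ z, (∑ e ∈ K z, (2 * (((DD H).filter (fun W => e ⊆ W)).card : ℚ) - (DD H).card))
      / (K z).card = ((N H z).card : ℚ) - (M H z).card
        - 2 * ∑ W ∈ N H z, (1 - ((KW K z W).card : ℚ) / (K z).card) := by
    intro z
    have h1 : ∑ e ∈ K z, (((DD H).filter (fun W => e ⊆ W)).card : ℚ)
        = ∑ W ∈ N H z, ((KW K z W).card : ℚ) := by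
      have h2 : ∀ e ∈ K z, (((DD H).filter (fun W => e ⊆ W)).card : ℚ)
          = ∑ W ∈ N H z, (if e ⊆ W then (1 : ℚ) else 0) := by
        intro e he
        rw [Finset.sum_boole]
        congr 2
        ext W
        simp only [N, mem_filter]
        constructor
        · rintro ⟨a, b⟩; exact ⟨⟨a, b (hK z e he).2⟩, b⟩
        · rintro ⟨⟨a, _⟩, b⟩; exact ⟨a, b⟩
      rw [Finset.sum_congr rfl h2, Finset.sum_comm]
      refine Finset.sum_congr rfl ?_
      intro W _
      rw [KW, Finset.sum_boole]
    have h3 := card_DD H z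
    have h4 : ((DD H).card : ℚ) = (N H z).card + (M H z).card := by exact_mod_cast h3.symm
    rw [Finset.sum_sub_distrib, ← Finset.mul_sum, h1, h4]
    simp only [sum_const, nsmul_eq_mul, Finset.sum_sub_distrib]
    rw [← Finset.sum_div]
    have := (hKpos z).ne'
    field_simp
    ring
  rw [Finset.sum_congr rfl (fun z _ => hterm z)]
  -- the essential pairs
  have hE : 2 * ∑ z, ((E H z).card : ℚ) ≤
      ∑ z, ∑ W ∈ N H z, (((J H W z).card : ℚ) + (I H W z).card) := by
    have h1 : ∑ z, (E H z).card = ∑ W ∈ DD H,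
        ((univ : Finset V).filter (fun v => v ∈ W ∧ ¬ IsD H (W.erase v))).card := by
      have h2 : ∀ z, (E H z).card = ∑ W ∈ DD H, (if z ∈ W ∧ ¬ IsD H (W.erase z) then 1 else 0) := by
        intro z
        rw [← Finset.card_filter]
        congr 1
        ext W
        simp only [E, N, mem_filter]
        tauto
      rw [Finset.sum_congr rfl (fun z _ => h2 z), Finset.sum_comm]
      refine Finset.sum_congr rfl ?_
      intro W _
      rw [Finset.card_filter]
    have h3 : 2 * ∑ z, (E H z).card ≤ ∑ z, ∑ W ∈ N H z, ((J H W z).card + (I H W z).card) := by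
      rw [h1, Finset.mul_sum]
      have h4 : ∑ z, ∑ W ∈ N H z, ((J H W z).card + (I H W z).card)
          = ∑ W ∈ DD H, ∑ z ∈ W, ((J H W z).card + (I H W z).card) := by
        refine Finset.sum_comm' ?_
        intro z W
        simp only [N, mem_filter, mem_univ, true_and]
        exact and_comm
      rw [h4]
      exact Finset.sum_le_sum (fun W _ => ess_le H W)
    exact_mod_cast h3
  -- the bound at each vertex
  have hpt : ∀ z, ∑ W ∈ N H z, (((J H W z).card : ℚ) + (I H W z).card) ≤
      2 * ((Z H z).card : ℚ) + 2 * (2 * ∑ W ∈ N H z, (1 - ((KW K z W).card : ℚ) / (K z).card)) := by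
    intro z
    have h1 : ∑ W ∈ N H z, ((I H W z).card : ℚ) * (((KW K z W).card : ℚ) / (K z).card)
        ≤ (Z H z).card := by
      have h2 : (∑ W ∈ N H z, ((I H W z).card : ℚ) * ((KW K z W).card : ℚ))
          ≤ (Z H z).card * (K z).card := by
        exact_mod_cast I_count H K hK z
      have h3 : ∑ W ∈ N H z, ((I H W z).card : ℚ) * (((KW K z W).card : ℚ) / (K z).card)
          = (∑ W ∈ N H z, ((I H W z).card : ℚ) * ((KW K z W).card : ℚ)) / (K z).card := by
        rw [Finset.sum_div]
        refine Finset.sum_congr rfl ?_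
        intro W _
        rw [mul_div_assoc]
      rw [h3, div_le_iff₀ (hKpos z)]
      exact h2
    have h5 := Finset.sum_le_sum (fun W hW => pt_le H K hne hJ hhalf z W hW)
    have h6 : ∑ W ∈ N H z, (2 * (((I H W z).card : ℚ) * (((KW K z W).card : ℚ) / (K z).card))
          + 4 * (1 - ((KW K z W).card : ℚ) / (K z).card))
        = 2 * ∑ W ∈ N H z, ((I H W z).card : ℚ) * (((KW K z W).card : ℚ) / (K z).card)
          + 4 * ∑ W ∈ N H z, (1 - ((KW K z W).card : ℚ) / (K z).card) := by
      rw [Finset.sum_add_distrib, ← Finset.mul_sum, ← Finset.mul_sum]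
    rw [h6] at h5
    linarith
  have hNZ : ∀ z, ((N H z).card : ℚ) + (Z H z).card ≤ (M H z).card + (E H z).card := by
    intro z; exact_mod_cast N_Z_le H z
  have hsumNZ := Finset.sum_le_sum (fun z (_ : z ∈ (univ : Finset V)) => hNZ z)
  have hsumpt := Finset.sum_lt_sum (fun z (_ : z ∈ (univ : Finset V)) => hpt z)
    ⟨z0, mem_univ _, pt_lt H K hK hne hJ hhalf z0 hz0⟩
  simp only [Finset.sum_add_distrib, Finset.sum_sub_distrib, ← Finset.mul_sum] at hsumNZ hsumpt hE ⊢
  linarith

/-- some hyperedge is contained in less than half of the sets, or all hyperedges are loops -/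
theorem exists_edge_lt [Nonempty V] (hK : ∀ z, ∀ e ∈ K z, e ∈ H ∧ z ∈ e)
    (hne : ∀ z, (K z).Nonempty)
    (hJ : ∀ W, IsD H W → ∀ z ∈ W, (J H W z).card ≤ 2)
    (hhalf : ∀ W, IsD H W → ∀ z ∈ W, (J H W z).Nonempty → 2 * (KW K z W).card ≤ (K z).card) :
    (∃ e ∈ H, 2 * ((DD H).filter (fun W => e ⊆ W)).card < (DD H).card) ∨
      ((∀ z, {z} ∈ H) ∧ ∀ e ∈ H, e.card ≤ 1) := by
  by_contra hcon
  push Not at hcon
  obtain ⟨hcon, hcon2⟩ := hcon
  by_cases hl : ∀ z, {z} ∈ H
  · obtain ⟨e, heH, hcard⟩ := hcon2 hl
    have hge := hcon e heH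
    obtain ⟨a, ha, b, hb, hab⟩ := Finset.one_lt_card.mp hcard
    have hall : ∀ W : Finset V, IsD H W := by
      intro W v hv
      exact ⟨{v}, hl v, by simp, by simpa using hv⟩
    have h1 : ((DD H).filter (fun W => e ⊆ W)).card + ((DD H).filter (fun W => e ⊆ W)).card
        ≤ ((DD H).filter (fun W => b ∈ W)).card := by
      have h2 : ((DD H).filter (fun W => e ⊆ W)).card ≤
          ((DD H).filter (fun W => b ∈ W ∧ a ∈ W)).card := by
        apply Finset.card_le_card
        intro W hW
        rw [mem_filter] at hW ⊢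
        exact ⟨hW.1, hW.2 hb, hW.2 ha⟩
      have h3 : ((DD H).filter (fun W => e ⊆ W)).card ≤
          ((DD H).filter (fun W => b ∈ W ∧ a ∉ W)).card := by
        refine Finset.card_le_card_of_injOn (fun W => W.erase a) ?_ ?_
        · intro W hW
          rw [mem_coe, mem_filter] at hW
          rw [mem_coe, mem_filter, mem_DD]
          refine ⟨hall _, ?_, by simp⟩
          rw [mem_erase]
          exact ⟨hab.symm, hW.2 hb⟩
        · intro W hW W' hW' heq
          rw [mem_coe, mem_filter] at hW hW'
          simp only at heq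
          rw [← insert_erase (hW.2 ha), ← insert_erase (hW'.2 ha), heq]
      have h4 := Finset.card_filter_add_card_filter_not
        (s := (DD H).filter (fun W => b ∈ W)) (fun W => a ∈ W)
      rw [Finset.filter_filter, Finset.filter_filter] at h4
      omega
    have h5 : ((DD H).filter (fun W => b ∈ W)).card < (DD H).card := by
      apply Finset.card_lt_card
      rw [Finset.filter_ssubset]
      exact ⟨∅, by rw [mem_DD]; exact hall ∅, by simp⟩
    omega
  · push Not at hl
    obtain ⟨z0, hz0⟩ := hl
    have h := sum_lt H K hK hne hJ hhalf z0 hz0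
    have hpos : 0 ≤ ∑ z, (∑ e ∈ K z, (2 * (((DD H).filter (fun W => e ⊆ W)).card : ℚ)
        - (DD H).card)) / (K z).card := by
      refine Finset.sum_nonneg ?_
      intro z _
      refine div_nonneg ?_ (by positivity)
      refine Finset.sum_nonneg ?_
      intro e he
      have h1 := hcon e (hK z e he).1
      have h2 : ((DD H).card : ℚ) ≤ 2 * ((DD H).filter (fun W => e ⊆ W)).card := by exact_mod_cast h1
      linarith
    linarith

/-- the strict form for hyperedges with at most three vertices -/
theorem three_lt [Nonempty V] (H : Finset (Finset V)) (hcard : ∀ e ∈ H, e.card ≤ 3)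
    (hz : ∀ z, ∃ e ∈ H, z ∈ e) (hun : ∀ z x, x ≠ z → ∃ e ∈ H, z ∈ e ∧ x ∉ e) :
    (∃ e ∈ H, 2 * ((DD H).filter (fun W => e ⊆ W)).card < (DD H).card) ∨
      ((∀ z, {z} ∈ H) ∧ ∀ e ∈ H, e.card ≤ 1) := by
  classical
  have hex := fun z => exists_K H z hcard (hz z) (hun z)
  choose K hKne hK hKhalf using hex
  refine exists_edge_lt H K hK hKne ?_ ?_
  · intro W hW z hzW
    obtain ⟨e, he, hze, heW⟩ := hW z hzW
    have hsub : J H W z ⊆ e.erase z := by
      intro v hv
      rw [J, mem_filter] at hv
      obtain ⟨_, _, _, hvz, hall⟩ := hv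
      rw [mem_erase]
      exact ⟨hvz, hall e he hze heW⟩
    have h1 := card_le_card hsub
    rw [card_erase_of_mem hze] at h1
    have h2 := hcard e he
    omega
  · intro W _ z hzW hJ
    obtain ⟨v, hv⟩ := hJ
    rw [J, mem_filter] at hv
    obtain ⟨_, _, _, hvz, hall⟩ := hv
    exact hKhalf z W hzW ⟨v, hvz, hall⟩

end graph

/-- the two counting inequalities between the family and the unions of hyperedges -/
theorem counts (A : Finset (Finset ℕ)) (hU : ∀ X ∈ A, ∀ Y ∈ A, X ∪ Y ∈ A) (h0 : ∅ ∈ A)
    (G : Finset (Finset ℕ)) (hG : ∀ g ∈ G, g ∈ A)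
    (hgen : ∀ S ∈ A, ∀ i ∈ S, ∃ g ∈ G, i ∈ g ∧ g ⊆ S) (i : ℕ) :
    (A.filter (fun X => i ∉ X)).card ≤ ((DD (HH G)).filter (fun W => hyp G i ⊆ W)).card ∧
      (DD (HH G)).card ≤ A.card := by
  classical
  constructor
  · refine Finset.card_le_card_of_injOn (phi G) ?_ ?_
    · intro X hX
      rw [mem_coe, mem_filter] at hX
      rw [mem_coe, mem_filter, mem_DD]
      refine ⟨phi_isD G X, ?_⟩
      intro g hg
      rw [mem_hyp] at hg
      simp only [phi, mem_filter, mem_univ, true_and]
      exact fun h => hX.2 (h hg)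
    · exact (phi_inj A G hgen).mono (by intro X hX; rw [mem_coe, mem_filter] at hX; exact hX.1)
  · refine Finset.card_le_card_of_injOn (psi G) ?_ ?_
    · intro W _
      rw [mem_coe]
      unfold psi
      refine Finset.sup_induction (p := fun S => S ∈ A) h0 ?_ ?_
      · intro X hX Y hY
        exact hU X hX Y hY
      · intro g _
        exact hG _ (mem_of_mem_erase g.2)
    · intro W hW W' hW' heq
      rw [mem_coe, mem_DD] at hW hW'
      rw [← phi_psi G W hW, ← phi_psi G W' hW', heq]

/-- Poonen's strengthening for the families generated by an antichain of degree at most three. -/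
theorem poonen_three (A : Finset (Finset ℕ)) (hne : A.Nonempty)
    (hU : ∀ X ∈ A, ∀ Y ∈ A, X ∪ Y ∈ A)
    (hsep : ∀ x ∈ A.sup id, ∀ y ∈ A.sup id, x ≠ y →
      ∃ S ∈ A, (x ∈ S ∧ y ∉ S) ∨ (y ∈ S ∧ x ∉ S))
    (hpow : A ≠ (A.sup id).powerset)
    (G : Finset (Finset ℕ)) (hG : G ⊆ A)
    (hgen : ∀ S ∈ A, ∀ i ∈ S, ∃ g ∈ G, i ∈ g ∧ g ⊆ S)
    (hanti : ∀ g ∈ G, ∀ h ∈ G, g ≠ ∅ → g ⊆ h → g = h)
    (hthree : ∀ i, (G.filter (fun g => i ∈ g)).card ≤ 3) :
    ∃ x ∈ A.sup id, 2 * (A.filter (fun S => x ∈ S)).card > A.card := by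
  classical
  -- a strict bound suffices
  have hfin : ∀ x, 2 * (A.filter (fun S => x ∈ S)).card > A.card →
      ∃ x ∈ A.sup id, 2 * (A.filter (fun S => x ∈ S)).card > A.card := by
    intro x hx
    refine ⟨x, ?_, hx⟩
    have hpos : 0 < (A.filter (fun S => x ∈ S)).card := by
      have := Finset.card_pos.mpr hne
      omega
    obtain ⟨S, hS⟩ := Finset.card_pos.mp hpos
    rw [mem_filter] at hS
    exact (Finset.le_sup (f := id) hS.1) hS.2
  have hne2 : A ≠ {∅} := by
    rintro rfl
    apply hpow
    simp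
  by_cases h0 : ∅ ∈ A
  swap
  · -- the family without the empty set
    have hU' : ∀ X ∈ insert ∅ A, ∀ Y ∈ insert ∅ A, X ∪ Y ∈ insert ∅ A := by
      intro X hX Y hY
      rw [mem_insert] at hX hY
      rcases hX with rfl | hX
      · rw [empty_union, mem_insert]; exact hY
      · rcases hY with rfl | hY
        · rw [union_empty, mem_insert]; exact Or.inr hX
        · rw [mem_insert]; exact Or.inr (hU X hX Y hY)
    have hgen' : ∀ S ∈ insert ∅ A, ∀ i ∈ S, ∃ g ∈ G, i ∈ g ∧ g ⊆ S := by
      intro X hX i hi
      rw [mem_insert] at hX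
      rcases hX with rfl | hX
      · simp at hi
      · exact hgen X hX i hi
    have hne3 : insert ∅ A ≠ {∅} := by
      intro h
      obtain ⟨S, hS⟩ := hne
      have : S ∈ ({∅} : Finset (Finset ℕ)) := by rw [← h]; exact mem_insert_of_mem hS
      rw [mem_singleton] at this
      rw [this] at hS
      exact h0 hS
    obtain ⟨i, hi⟩ := frankl_three (insert ∅ A) hU' hne3 G
      (fun g hg => mem_insert_of_mem (hG hg)) hgen' hanti hthree
    apply hfin i
    rw [Finset.filter_insert, if_neg (by simp), Finset.card_insert_of_notMem h0] at hi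
    omega
  · have hA : ∃ S ∈ A, S ≠ ∅ := by
      by_contra hcon
      push Not at hcon
      apply hne2
      rw [Finset.eq_singleton_iff_unique_mem]
      exact ⟨h0, hcon⟩
    obtain ⟨S, hS, hSne⟩ := hA
    obtain ⟨j, hj⟩ := Finset.nonempty_iff_ne_empty.mpr hSne
    obtain ⟨g0, hg0, hjg0, _⟩ := hgen S hS j hj
    have hmem : g0 ∈ G.erase ∅ := by
      rw [mem_erase]
      refine ⟨?_, hg0⟩
      rintro rfl
      simp at hjg0
    have hV : Nonempty (Gen G) := ⟨⟨g0, hmem⟩⟩
    have hlow : ∀ z : Gen G, z.1 ≠ ∅ ∧ z.1 ∈ G := fun z => mem_erase.mp z.2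
    have hmain := three_lt (HH G) (by
        intro e he
        rw [HH, mem_image] at he
        obtain ⟨i, _, rfl⟩ := he
        refine le_trans ?_ (hthree i)
        refine Finset.card_le_card_of_injOn (fun g : Gen G => g.1) ?_ ?_
        · intro g hg
          rw [mem_coe, mem_hyp] at hg
          rw [mem_coe, mem_filter]
          exact ⟨(hlow g).2, hg⟩
        · intro g _ h _ heq
          exact Subtype.ext heq)
      (by
        intro z
        obtain ⟨i, hi⟩ := Finset.nonempty_iff_ne_empty.mpr (hlow z).1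
        exact ⟨hyp G i, hyp_mem hi, mem_hyp.mpr hi⟩)
      (by
        intro z x hxz
        have hns : ¬ z.1 ⊆ x.1 := by
          intro hsub
          exact hxz (Subtype.ext (hanti z.1 (hlow z).2 x.1 (hlow x).2 (hlow z).1 hsub)).symm
        rw [Finset.not_subset] at hns
        obtain ⟨i, hi, hix⟩ := hns
        refine ⟨hyp G i, hyp_mem hi, mem_hyp.mpr hi, ?_⟩
        rw [mem_hyp]
        exact hix)
    rcases hmain with ⟨e, he, hlt⟩ | ⟨hloop, hone⟩
    · rw [HH, mem_image] at he
      obtain ⟨i, _, rfl⟩ := he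
      apply hfin i
      have hc := counts A hU h0 G (fun g hg => hG hg) hgen i
      have hsplit := Finset.card_filter_add_card_filter_not (s := A) (fun X => i ∈ X)
      omega
    · exfalso
      -- all generators are singletons
      have hsame : ∀ i k : ℕ, ∀ g ∈ G, i ∈ g → k ∈ g → i = k := by
        intro i k g hg hi hk
        by_contra hik
        have hgU : ∀ l ∈ g, l ∈ A.sup id := fun l hl => (Finset.le_sup (f := id) (hG hg)) hl
        have hgm : g ∈ G.erase ∅ := by
          rw [mem_erase]
          refine ⟨?_, hg⟩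
          rintro rfl
          simp at hi
        have huniq : ∀ l ∈ g, ∀ g' ∈ G, l ∈ g' → g' = g := by
          intro l hl g' hg' hl'
          have hgm' : g' ∈ G.erase ∅ := by
            rw [mem_erase]
            refine ⟨?_, hg'⟩
            rintro rfl
            simp at hl'
          have h1 := hone (hyp G l) (hyp_mem (g := ⟨g, hgm⟩) hl)
          rw [Finset.card_le_one] at h1
          have := h1 ⟨g', hgm'⟩ (mem_hyp.mpr hl') ⟨g, hgm⟩ (mem_hyp.mpr hl)
          exact congrArg Subtype.val this
        have hiff : ∀ S ∈ A, ∀ l ∈ g, ∀ m ∈ g, l ∈ S → m ∈ S := by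
          intro S hS l hl m hm hlS
          obtain ⟨g', hg', hlg', hsub⟩ := hgen S hS l hlS
          have := huniq l hl g' hg' hlg'
          rw [this] at hsub
          exact hsub hm
        obtain ⟨S, hS, h | h⟩ := hsep i (hgU i hi) k (hgU k hk) hik
        · exact h.2 (hiff S hS i hi k hk h.1)
        · exact h.2 (hiff S hS k hk i hi h.1)
      have hsing : ∀ i ∈ A.sup id, ({i} : Finset ℕ) ∈ A := by
        intro i hi
        rw [Finset.mem_sup] at hi
        obtain ⟨S, hS, hiS⟩ := hi
        obtain ⟨g, hg, hig, _⟩ := hgen S hS i hiS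
        have : g = {i} := by
          rw [Finset.eq_singleton_iff_unique_mem]
          exact ⟨hig, fun k hk => hsame k i g hg hk hig⟩
        rw [← this]
        exact hG hg
      apply hpow
      apply Finset.Subset.antisymm
      · intro S hS
        rw [Finset.mem_powerset]
        exact Finset.le_sup (f := id) hS
      · intro S hS
        rw [Finset.mem_powerset] at hS
        have : S = S.sup (fun i => ({i} : Finset ℕ)) := by
          ext x
          simp [Finset.mem_sup]
        rw [this]
        refine Finset.sup_induction (p := fun T => T ∈ A) h0 (fun X hX Y hY => hU X hX Y hY) ?_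
        intro i hi
        exact hsing i (hS hi)

end Pool.Agent.W849.R3
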