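import Mathlib
import Pool.Agent.W849.R3Graph

set_option autoImplicit false

/-!
# The averaging inequality for down-closed families of unions of hyperedges

`X` is a family of unions of hyperedges which contains every union of hyperedges which is
contained in a member of `X`.
-/

namespace Pool.Agent.W849.R3U

open Finset Pool.Agent.W849.R3

section graph

variable {V : Type*} [DecidableEq V] [Fintype V]

variable (H : Finset (Finset V)) (X : Finset (Finset V))

/-- the sets containing `u` -/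
def N (u : V) : Finset (Finset V) := X.filter (fun W => u ∈ W)
/-- the sets not containing `u` -/
def M (u : V) : Finset (Finset V) := X.filter (fun W => u ∉ W)
/-- the sets `W` with `u ∈ W` from which `u` cannot be removed -/
def E (u : V) : Finset (Finset V) := (N X u).filter (fun W => ¬ IsD H (W.erase u))
/-- the sets `W` to which `u` cannot be added -/
def Z (u : V) : Finset (Finset V) := (M X u).filter (fun W => insert u W ∉ X)

theorem N_Z_le (hdown : ∀ W ∈ X, ∀ W', IsD H W' → W' ⊆ W → W' ∈ X) (u : V) :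
    (N X u).card + (Z X u).card ≤ (M X u).card + (E H X u).card := by
  classical
  have h1 := Finset.card_filter_add_card_filter_not (s := N X u) (fun W => IsD H (W.erase u))
  have h2 : ((N X u).filter (fun W => IsD H (W.erase u))).card
      ≤ ((M X u) \ (Z X u)).card := by
    refine Finset.card_le_card_of_injOn (fun W => W.erase u) ?_ ?_
    · intro W hW
      rw [mem_coe, mem_filter, N, mem_filter] at hW
      rw [mem_coe, mem_sdiff]
      obtain ⟨⟨hD, hu⟩, hD'⟩ := hW
      refine ⟨?_, ?_⟩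
      · rw [M, mem_filter]
        exact ⟨hdown W hD _ hD' (erase_subset _ _), by simp⟩
      · rw [Z, mem_filter]
        rintro ⟨_, h⟩
        rw [insert_erase hu] at h
        exact h hD
    · intro W hW W' hW' heq
      rw [mem_coe, mem_filter, N, mem_filter] at hW hW'
      simp only at heq
      rw [← insert_erase hW.1.2, ← insert_erase hW'.1.2, heq]
  have h3 : ((M X u) \ (Z X u)).card + (Z X u).card = (M X u).card := by
    exact Finset.card_sdiff_add_card_eq_card (Finset.filter_subset _ _)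
  have h4 : (E H X u).card = ((N X u).filter (fun W => ¬ IsD H (W.erase u))).card := rfl
  omega

theorem card_X (u : V) : (N X u).card + (M X u).card = X.card :=
  Finset.card_filter_add_card_filter_not (s := X) (fun W => u ∈ W)

variable (K : V → Finset (Finset V))

/-- the image of a triple in the counting of the sets in which `z` is the only vertex depending on
some vertex -/
theorem I_mem (hXD : ∀ W ∈ X, IsD H W)
    (hdown : ∀ W ∈ X, ∀ W', IsD H W' → W' ⊆ W → W' ∈ X) (z : V)
    (W : Finset V) (hD : W ∈ X) (hzW : z ∈ W) (v : V) (hv : v ∈ I H W z) :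
    (W.erase z).erase v ∈ Z X z := by
  classical
  rw [I, mem_filter, J, mem_filter] at hv
  obtain ⟨⟨_, hdep⟩, hsole⟩ := hv
  obtain ⟨hvW, _, hvz, hall⟩ := hdep
  have hmem : ∀ x, x ∈ (W.erase z).erase v ↔ x ≠ v ∧ x ≠ z ∧ x ∈ W := by
    intro x; simp [mem_erase]
  rw [Z, mem_filter, M, mem_filter]
  refine ⟨⟨?_, ?_⟩, ?_⟩
  · refine hdown W hD _ ?_ ((erase_subset _ _).trans (erase_subset _ _))
    intro x hx
    rw [hmem] at hx
    have hnd : ¬ Dep H W v x := by
      intro hd
      have : x ∈ Dp H W v := by rw [Dp, mem_filter]; exact ⟨mem_univ _, hd⟩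
      rw [hsole, mem_singleton] at this
      exact hx.2.1 this
    unfold Dep at hnd
    push Not at hnd
    obtain ⟨f, hf1, hf2, hf3, hf4⟩ := hnd hvW hx.2.2 (Ne.symm hx.1)
    refine ⟨f, hf1, hf2, ?_⟩
    intro y hy
    rw [hmem]
    refine ⟨?_, ?_, hf3 hy⟩
    · rintro rfl; exact hf4 hy
    · rintro rfl; exact hf4 (hall f hf1 hy hf3)
  · rw [hmem]; simp
  · intro hX2
    obtain ⟨f, hf1, hf2, hf3⟩ := hXD _ hX2 z (mem_insert_self _ _)
    have hfW : f ⊆ W := by
      intro y hy
      have := hf3 hy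
      rw [mem_insert, hmem] at this
      rcases this with h | h
      · rw [h]; exact hzW
      · exact h.2.2
    have hvf := hall f hf1 hf2 hfW
    have := hf3 hvf
    rw [mem_insert, hmem] at this
    rcases this with h | h
    · exact hvz h
    · exact h.1 rfl

/-- the injectivity -/
theorem I_inj (hK : ∀ z, ∀ e ∈ K z, e ∈ H ∧ z ∈ e) (z : V) :
    Set.InjOn (fun p : (Σ _ : Finset V, V × Finset V) => ((p.1.erase z).erase p.2.1, p.2.2))
      ((N X z).sigma (fun W => (I H W z) ×ˢ (KW K z W)) :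
        Set (Σ _ : Finset V, V × Finset V)) := by
  classical
  rintro ⟨W, v, e⟩ hp ⟨W', v', e'⟩ hp' heq
  rw [mem_coe, mem_sigma, mem_product] at hp hp'
  simp only at hp hp' heq
  obtain ⟨hW, hv, he⟩ := hp
  obtain ⟨hW', hv', he'⟩ := hp'
  rw [N, mem_filter] at hW hW'
  rw [I, mem_filter, J, mem_filter] at hv hv'
  obtain ⟨⟨_, hvW, _, hvz, hall⟩, _⟩ := hv
  obtain ⟨⟨_, hvW', _, hvz', hall'⟩, _⟩ := hv'
  rw [KW, mem_filter] at he he'
  rw [Prod.mk.injEq] at heq
  obtain ⟨heq1, heq2⟩ := heq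
  subst heq2
  have h1 : v ∈ e := hall e (hK z e he.1).1 (hK z e he.1).2 he.2
  have h2 : v' ∈ e := hall' e (hK z e he.1).1 (hK z e he.1).2 he'.2
  have hvv : v = v' := by
    by_contra hne
    have h3 : v ∈ (W'.erase z).erase v' := by
      rw [mem_erase, mem_erase]; exact ⟨hne, hvz, he'.2 h1⟩
    rw [← heq1] at h3
    simp at h3
  subst hvv
  have h4 : W = W' := by
    have e1 : W = insert z (insert v ((W.erase z).erase v)) := by
      rw [insert_erase, insert_erase hW.2]
      rw [mem_erase]; exact ⟨hvz, hvW⟩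
    have e2 : W' = insert z (insert v ((W'.erase z).erase v)) := by
      rw [insert_erase, insert_erase hW'.2]
      rw [mem_erase]; exact ⟨hvz, hvW'⟩
    rw [e1, e2, heq1]
  subst h4
  rfl

theorem card_sig (z : V) : ∑ W ∈ N X z, (I H W z).card * (KW K z W).card
    = ((N X z).sigma (fun W => (I H W z) ×ˢ (KW K z W))).card := by
  rw [card_sigma]
  refine Finset.sum_congr rfl ?_
  intro W _
  rw [card_product]

/-- counting the sets in which `z` is the only vertex depending on some vertex -/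
theorem I_count (hXD : ∀ W ∈ X, IsD H W)
    (hdown : ∀ W ∈ X, ∀ W', IsD H W' → W' ⊆ W → W' ∈ X)
    (hK : ∀ z, ∀ e ∈ K z, e ∈ H ∧ z ∈ e) (z : V) :
    ∑ W ∈ N X z, (I H W z).card * (KW K z W).card ≤ (Z X z).card * (K z).card := by
  classical
  rw [card_sig, ← card_product]
  refine Finset.card_le_card_of_injOn _ ?_ (I_inj H X K hK z)
  rintro ⟨W, v, e⟩ hp
  rw [mem_coe, mem_sigma, mem_product] at hp
  simp only at hp
  obtain ⟨hW, hv, he⟩ := hp
  rw [N, mem_filter] at hW
  rw [KW, mem_filter] at he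
  rw [mem_coe, mem_product]
  exact ⟨I_mem H X hXD hdown z W hW.1 hW.2 v hv, he.1⟩

/-- the counting inequality is strict if a maximal set can be enlarged by `z` only outside of
the family -/
theorem I_count_lt (hXD : ∀ W ∈ X, IsD H W)
    (hdown : ∀ W ∈ X, ∀ W', IsD H W' → W' ⊆ W → W' ∈ X)
    (hK : ∀ z, ∀ e ∈ K z, e ∈ H ∧ z ∈ e) (z : V) (hne : (K z).Nonempty)
    (W0 : Finset V) (hW0 : W0 ∈ X) (hz : z ∉ W0) (hmax : ∀ W ∈ X, W.card ≤ W0.card) :
    ∑ W ∈ N X z, (I H W z).card * (KW K z W).card < (Z X z).card * (K z).card := by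
  classical
  rw [card_sig, ← card_product]
  obtain ⟨e0, he0⟩ := hne
  have hmemZ : W0 ∈ Z X z := by
    rw [Z, mem_filter, M, mem_filter]
    refine ⟨⟨hW0, hz⟩, ?_⟩
    intro h
    have := hmax _ h
    rw [card_insert_of_notMem hz] at this
    omega
  have hmem0 : (W0, e0) ∈ Z X z ×ˢ K z := by
    rw [mem_product]; exact ⟨hmemZ, he0⟩
  have hlt : ((Z X z ×ˢ K z).erase (W0, e0)).card < (Z X z ×ˢ K z).card :=
    Finset.card_erase_lt_of_mem hmem0
  refine lt_of_le_of_lt ?_ hlt
  refine Finset.card_le_card_of_injOn _ ?_ (I_inj H X K hK z)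
  rintro ⟨W, v, e⟩ hp
  rw [mem_coe, mem_sigma, mem_product] at hp
  simp only at hp
  obtain ⟨hW, hv, he⟩ := hp
  rw [N, mem_filter] at hW
  rw [KW, mem_filter] at he
  rw [mem_coe, mem_erase, mem_product]
  refine ⟨?_, I_mem H X hXD hdown z W hW.1 hW.2 v hv, he.1⟩
  intro heq
  rw [Prod.mk.injEq] at heq
  have h1 : (W.erase z).erase v = W0 := heq.1
  have h2 := hmax W hW.1
  have h3 : ((W.erase z).erase v).card ≤ (W.erase z).card := card_le_card (erase_subset _ _)
  have h4 := card_erase_lt_of_mem hW.2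
  rw [h1] at h3
  omega

/-- rewriting a term of the averaging inequality -/
theorem term_eq (hK : ∀ z, ∀ e ∈ K z, e ∈ H ∧ z ∈ e) (z : V) (hne : (K z).Nonempty) :
    (∑ e ∈ K z, (2 * ((X.filter (fun W => e ⊆ W)).card : ℚ) - X.card))
      / (K z).card = ((N X z).card : ℚ) - (M X z).card
        - 2 * ∑ W ∈ N X z, (1 - ((KW K z W).card : ℚ) / (K z).card) := by
  classical
  have hKpos : (0 : ℚ) < (K z).card := by
    exact_mod_cast Finset.card_pos.mpr hne
  have h1 : ∑ e ∈ K z, ((X.filter (fun W => e ⊆ W)).card : ℚ)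
      = ∑ W ∈ N X z, ((KW K z W).card : ℚ) := by
    have h2 : ∀ e ∈ K z, ((X.filter (fun W => e ⊆ W)).card : ℚ)
        = ∑ W ∈ N X z, (if e ⊆ W then (1 : ℚ) else 0) := by
      intro e he
      rw [Finset.sum_boole]
      congr 2
      ext W
      simp only [N, mem_filter]
      constructor
      · rintro ⟨a, b⟩; exact ⟨⟨a, b (hK z e he).2⟩, b⟩
      · rintro ⟨⟨a, _⟩, b⟩; exact ⟨a, b⟩
    rw [Finset.sum_congr rfl h2, Finset.sum_comm]
    refine Finset.sum_congr rfl ?_
    intro W _
    rw [KW, Finset.sum_boole]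
  have h3 := card_X X z
  have h4 : (X.card : ℚ) = (N X z).card + (M X z).card := by exact_mod_cast h3.symm
  rw [Finset.sum_sub_distrib, ← Finset.mul_sum, h1, h4]
  simp only [sum_const, nsmul_eq_mul, Finset.sum_sub_distrib]
  rw [← Finset.sum_div]
  have := hKpos.ne'
  field_simp
  ring

/-- the essential pairs -/
theorem ess_sum : 2 * ∑ z, ((E H X z).card : ℚ) ≤
      ∑ z, ∑ W ∈ N X z, (((J H W z).card : ℚ) + (I H W z).card) := by
  classical
  have h1 : ∑ z, (E H X z).card = ∑ W ∈ X,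
      ((univ : Finset V).filter (fun v => v ∈ W ∧ ¬ IsD H (W.erase v))).card := by
    have h2 : ∀ z, (E H X z).card = ∑ W ∈ X, (if z ∈ W ∧ ¬ IsD H (W.erase z) then 1 else 0) := by
      intro z
      rw [← Finset.card_filter]
      congr 1
      ext W
      simp only [E, N, mem_filter]
      tauto
    rw [Finset.sum_congr rfl (fun z _ => h2 z), Finset.sum_comm]
    refine Finset.sum_congr rfl ?_
    intro W _
    rw [Finset.card_filter]
  have h3 : 2 * ∑ z, (E H X z).card ≤ ∑ z, ∑ W ∈ N X z, ((J H W z).card + (I H W z).card) := by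
    rw [h1, Finset.mul_sum]
    have h4 : ∑ z, ∑ W ∈ N X z, ((J H W z).card + (I H W z).card)
        = ∑ W ∈ X, ∑ z ∈ W, ((J H W z).card + (I H W z).card) := by
      refine Finset.sum_comm' ?_
      intro z W
      simp only [N, mem_filter, mem_univ, true_and]
      exact and_comm
    rw [h4]
    exact Finset.sum_le_sum (fun W _ => ess_le H W)
  exact_mod_cast h3

/-- the pointwise bound at a vertex -/
theorem pt (hne : ∀ z, (K z).Nonempty)
    (hJ : ∀ W, IsD H W → ∀ z ∈ W, (J H W z).card ≤ 2)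
    (hhalf : ∀ W, IsD H W → ∀ z ∈ W, (J H W z).Nonempty → 2 * (KW K z W).card ≤ (K z).card)
    (z : V) (W : Finset V) (hW : IsD H W) (hzW : z ∈ W) :
    (((J H W z).card : ℚ) + (I H W z).card) ≤
        2 * (((I H W z).card : ℚ) * (((KW K z W).card : ℚ) / (K z).card))
          + 4 * (1 - ((KW K z W).card : ℚ) / (K z).card) := by
  have hKpos : ∀ z, (0 : ℚ) < (K z).card := fun z => by
    exact_mod_cast Finset.card_pos.mpr (hne z)
  set t : ℚ := ((KW K z W).card : ℚ) / (K z).card with ht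
  have hIJ : (I H W z).card ≤ (J H W z).card := Finset.card_le_card (Finset.filter_subset _ _)
  have hJ2 := hJ W hW z hzW
  by_cases hemp : (J H W z).Nonempty
  · have ht2 : t ≤ 1 / 2 := by
      rw [ht, div_le_iff₀ (hKpos z)]
      have := hhalf W hW z hzW hemp
      have h5 : (2 : ℚ) * (KW K z W).card ≤ (K z).card := by exact_mod_cast this
      linarith
    have ht0 : 0 ≤ t := by positivity
    have a1 : ((I H W z).card : ℚ) ≤ (J H W z).card := by exact_mod_cast hIJ
    have a2 : ((J H W z).card : ℚ) ≤ 2 := by exact_mod_cast hJ2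
    have a3 : (0 : ℚ) ≤ (I H W z).card := by positivity
    nlinarith
  · rw [Finset.not_nonempty_iff_eq_empty] at hemp
    have hI0 : (I H W z).card = 0 := by
      rw [hemp] at hIJ; simpa using hIJ
    rw [hI0, hemp]
    have ht1 : t ≤ 1 := by
      rw [ht, div_le_iff₀ (hKpos z), one_mul]
      exact_mod_cast Finset.card_le_card (Finset.filter_subset _ _)
    simp only [card_empty, Nat.cast_zero, zero_mul, mul_zero, zero_add, add_zero]
    linarith

/-- the bound at each vertex from the counting inequality -/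
theorem hpt (hXD : ∀ W ∈ X, IsD H W) (hne : ∀ z, (K z).Nonempty)
    (hJ : ∀ W, IsD H W → ∀ z ∈ W, (J H W z).card ≤ 2)
    (hhalf : ∀ W, IsD H W → ∀ z ∈ W, (J H W z).Nonempty → 2 * (KW K z W).card ≤ (K z).card)
    (z : V) :
    ∑ W ∈ N X z, (((J H W z).card : ℚ) + (I H W z).card) ≤
      2 * ((∑ W ∈ N X z, ((I H W z).card : ℚ) * ((KW K z W).card : ℚ)) / (K z).card)
        + 2 * (2 * ∑ W ∈ N X z, (1 - ((KW K z W).card : ℚ) / (K z).card)) := by
  have h3 : ∑ W ∈ N X z, ((I H W z).card : ℚ) * (((KW K z W).card : ℚ) / (K z).card)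
      = (∑ W ∈ N X z, ((I H W z).card : ℚ) * ((KW K z W).card : ℚ)) / (K z).card := by
    rw [Finset.sum_div]
    refine Finset.sum_congr rfl ?_
    intro W _
    rw [mul_div_assoc]
  have h5 := Finset.sum_le_sum (fun W (hW : W ∈ N X z) =>
    pt H K hne hJ hhalf z W (hXD W (mem_filter.mp hW).1) (mem_filter.mp hW).2)
  have h6 : ∑ W ∈ N X z, (2 * (((I H W z).card : ℚ) * (((KW K z W).card : ℚ) / (K z).card))
        + 4 * (1 - ((KW K z W).card : ℚ) / (K z).card))
      = 2 * ∑ W ∈ N X z, ((I H W z).card : ℚ) * (((KW K z W).card : ℚ) / (K z).card)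
        + 4 * ∑ W ∈ N X z, (1 - ((KW K z W).card : ℚ) / (K z).card) := by
    rw [Finset.sum_add_distrib, ← Finset.mul_sum, ← Finset.mul_sum]
  rw [h6, h3] at h5
  linarith

/-- the averaging inequality -/
theorem sum_le (hXD : ∀ W ∈ X, IsD H W)
    (hdown : ∀ W ∈ X, ∀ W', IsD H W' → W' ⊆ W → W' ∈ X)
    (hK : ∀ z, ∀ e ∈ K z, e ∈ H ∧ z ∈ e) (hne : ∀ z, (K z).Nonempty)
    (hJ : ∀ W, IsD H W → ∀ z ∈ W, (J H W z).card ≤ 2)
    (hhalf : ∀ W, IsD H W → ∀ z ∈ W, (J H W z).Nonempty → 2 * (KW K z W).card ≤ (K z).card) :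
    ∑ z, (∑ e ∈ K z, (2 * ((X.filter (fun W => e ⊆ W)).card : ℚ) - X.card))
      / (K z).card ≤ 0 := by
  classical
  have hKpos : ∀ z, (0 : ℚ) < (K z).card := fun z => by
    exact_mod_cast Finset.card_pos.mpr (hne z)
  rw [Finset.sum_congr rfl (fun z _ => term_eq H X K hK z (hne z))]
  have hE := ess_sum H X
  have hpt' : ∀ z, ∑ W ∈ N X z, (((J H W z).card : ℚ) + (I H W z).card) ≤
      2 * ((Z X z).card : ℚ) + 2 * (2 * ∑ W ∈ N X z, (1 - ((KW K z W).card : ℚ) / (K z).card)) := by
    intro z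
    have h0 := hpt H X K hXD hne hJ hhalf z
    have h1 : (∑ W ∈ N X z, ((I H W z).card : ℚ) * ((KW K z W).card : ℚ)) / (K z).card
        ≤ (Z X z).card := by
      rw [div_le_iff₀ (hKpos z)]
      exact_mod_cast I_count H X K hXD hdown hK z
    linarith
  have hNZ : ∀ z, ((N X z).card : ℚ) + (Z X z).card ≤ (M X z).card + (E H X z).card := by
    intro z; exact_mod_cast N_Z_le H X hdown z
  have hsumNZ := Finset.sum_le_sum (fun z (_ : z ∈ (univ : Finset V)) => hNZ z)
  have hsumpt := Finset.sum_le_sum (fun z (_ : z ∈ (univ : Finset V)) => hpt' z)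
  simp only [Finset.sum_add_distrib, Finset.sum_sub_distrib, ← Finset.mul_sum] at hsumNZ hsumpt hE ⊢
  linarith

/-- the averaging inequality is strict if the set of all vertices is missing -/
theorem sum_lt (hXD : ∀ W ∈ X, IsD H W)
    (hdown : ∀ W ∈ X, ∀ W', IsD H W' → W' ⊆ W → W' ∈ X)
    (hK : ∀ z, ∀ e ∈ K z, e ∈ H ∧ z ∈ e) (hne : ∀ z, (K z).Nonempty)
    (hJ : ∀ W, IsD H W → ∀ z ∈ W, (J H W z).card ≤ 2)
    (hhalf : ∀ W, IsD H W → ∀ z ∈ W, (J H W z).Nonempty → 2 * (KW K z W).card ≤ (K z).card)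
    (hXne : X.Nonempty) (huniv : univ ∉ X) :
    ∑ z, (∑ e ∈ K z, (2 * ((X.filter (fun W => e ⊆ W)).card : ℚ) - X.card))
      / (K z).card < 0 := by
  classical
  obtain ⟨W0, hW0, hmax⟩ := Finset.exists_max_image X Finset.card hXne
  obtain ⟨z0, hz0⟩ : ∃ z0, z0 ∉ W0 := by
    by_contra hcon
    push Not at hcon
    apply huniv
    rw [← Finset.eq_univ_of_forall hcon]; exact hW0
  have hKpos : ∀ z, (0 : ℚ) < (K z).card := fun z => by
    exact_mod_cast Finset.card_pos.mpr (hne z)
  rw [Finset.sum_congr rfl (fun z _ => term_eq H X K hK z (hne z))]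
  have hE := ess_sum H X
  have hpt' : ∀ z, ∑ W ∈ N X z, (((J H W z).card : ℚ) + (I H W z).card) ≤
      2 * ((Z X z).card : ℚ) + 2 * (2 * ∑ W ∈ N X z, (1 - ((KW K z W).card : ℚ) / (K z).card)) := by
    intro z
    have h0 := hpt H X K hXD hne hJ hhalf z
    have h1 : (∑ W ∈ N X z, ((I H W z).card : ℚ) * ((KW K z W).card : ℚ)) / (K z).card
        ≤ (Z X z).card := by
      rw [div_le_iff₀ (hKpos z)]
      exact_mod_cast I_count H X K hXD hdown hK z
    linarith
  have hpt0 : ∑ W ∈ N X z0, (((J H W z0).card : ℚ) + (I H W z0).card) <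
      2 * ((Z X z0).card : ℚ)
        + 2 * (2 * ∑ W ∈ N X z0, (1 - ((KW K z0 W).card : ℚ) / (K z0).card)) := by
    have h0 := hpt H X K hXD hne hJ hhalf z0
    have h1 : (∑ W ∈ N X z0, ((I H W z0).card : ℚ) * ((KW K z0 W).card : ℚ)) / (K z0).card
        < (Z X z0).card := by
      rw [div_lt_iff₀ (hKpos z0)]
      exact_mod_cast I_count_lt H X K hXD hdown hK z0 (hne z0) W0 hW0 hz0 hmax
    linarith
  have hNZ : ∀ z, ((N X z).card : ℚ) + (Z X z).card ≤ (M X z).card + (E H X z).card := by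
    intro z; exact_mod_cast N_Z_le H X hdown z
  have hsumNZ := Finset.sum_le_sum (fun z (_ : z ∈ (univ : Finset V)) => hNZ z)
  have hsumpt := Finset.sum_lt_sum (fun z (_ : z ∈ (univ : Finset V)) => hpt' z)
    ⟨z0, mem_univ _, hpt0⟩
  simp only [Finset.sum_add_distrib, Finset.sum_sub_distrib, ← Finset.mul_sum] at hsumNZ hsumpt hE ⊢
  linarith

/-- some hyperedge is contained in at most half of the sets -/
theorem exists_edge [Nonempty V] (hXD : ∀ W ∈ X, IsD H W)
    (hdown : ∀ W ∈ X, ∀ W', IsD H W' → W' ⊆ W → W' ∈ X)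
    (hK : ∀ z, ∀ e ∈ K z, e ∈ H ∧ z ∈ e) (hne : ∀ z, (K z).Nonempty)
    (hJ : ∀ W, IsD H W → ∀ z ∈ W, (J H W z).card ≤ 2)
    (hhalf : ∀ W, IsD H W → ∀ z ∈ W, (J H W z).Nonempty → 2 * (KW K z W).card ≤ (K z).card) :
    ∃ e ∈ H, 2 * (X.filter (fun W => e ⊆ W)).card ≤ X.card := by
  by_contra hcon
  push Not at hcon
  have h := sum_le H X K hXD hdown hK hne hJ hhalf
  have hpos : 0 < ∑ z, (∑ e ∈ K z, (2 * ((X.filter (fun W => e ⊆ W)).card : ℚ)
      - X.card)) / (K z).card := by
    refine Finset.sum_pos ?_ Finset.univ_nonempty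
    intro z _
    refine div_pos ?_ (by exact_mod_cast Finset.card_pos.mpr (hne z))
    refine Finset.sum_pos ?_ (hne z)
    intro e he
    have h1 := hcon e (hK z e he).1
    have h2 : (X.card : ℚ) < 2 * (X.filter (fun W => e ⊆ W)).card := by exact_mod_cast h1
    linarith
  linarith

/-- some hyperedge is contained in less than half of the sets if the set of all vertices is
missing -/
theorem exists_edge_lt (hXD : ∀ W ∈ X, IsD H W)
    (hdown : ∀ W ∈ X, ∀ W', IsD H W' → W' ⊆ W → W' ∈ X)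
    (hK : ∀ z, ∀ e ∈ K z, e ∈ H ∧ z ∈ e) (hne : ∀ z, (K z).Nonempty)
    (hJ : ∀ W, IsD H W → ∀ z ∈ W, (J H W z).card ≤ 2)
    (hhalf : ∀ W, IsD H W → ∀ z ∈ W, (J H W z).Nonempty → 2 * (KW K z W).card ≤ (K z).card)
    (hXne : X.Nonempty) (huniv : univ ∉ X) :
    ∃ e ∈ H, 2 * (X.filter (fun W => e ⊆ W)).card < X.card := by
  by_contra hcon
  push Not at hcon
  have h := sum_lt H X K hXD hdown hK hne hJ hhalf hXne huniv
  have hpos : 0 ≤ ∑ z, (∑ e ∈ K z, (2 * ((X.filter (fun W => e ⊆ W)).card : ℚ)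
      - X.card)) / (K z).card := by
    refine Finset.sum_nonneg ?_
    intro z _
    refine div_nonneg ?_ (by positivity)
    refine Finset.sum_nonneg ?_
    intro e he
    have h1 := hcon e (hK z e he).1
    have h2 : (X.card : ℚ) ≤ 2 * (X.filter (fun W => e ⊆ W)).card := by exact_mod_cast h1
    linarith
  linarith

end graph

end Pool.Agent.W849.R3U
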