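import Mathlib
import Pool.Agent.W849.R3Graph
import Pool.Agent.W849.R3Family
import Pool.Agent.W849.R3Strict
import Pool.Agent.W849.R3Up

set_option autoImplicit false

/-!
# Families of unions of members of an antichain of degree at most three
-/

namespace Pool.Agent.W849.R3U

open Finset Pool.Agent.W849.R3

/-- the unions of hyperedges corresponding to the members of `A` -/
def XX (A G : Finset (Finset ℕ)) : Finset (Finset (Gen G)) :=
  (DD (HH G)).filter (fun W => psi G W ∈ A)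

theorem mem_XX {A G : Finset (Finset ℕ)} {W : Finset (Gen G)} :
    W ∈ XX A G ↔ IsD (HH G) W ∧ psi G W ∈ A := by
  rw [XX, mem_filter, mem_DD]

theorem stable_sup {A G : Finset (Finset ℕ)} (hst : ∀ S ∈ A, ∀ g ∈ G, S ∪ g ∈ A)
    (S : Finset ℕ) (hS : S ∈ A) (T : Finset (Gen G)) :
    S ∪ T.sup (fun g => g.1) ∈ A := by
  classical
  induction T using Finset.induction_on with
  | empty => simpa using hS
  | insert a T _ ih =>
    rw [Finset.sup_insert, Finset.sup_eq_union, Finset.union_comm a.1, ← Finset.union_assoc]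
    exact hst _ ih _ (mem_of_mem_erase a.2)

theorem XX_down {A G : Finset (Finset ℕ)} (hst : ∀ S ∈ A, ∀ g ∈ G, S ∪ g ∈ A) :
    ∀ W ∈ XX A G, ∀ W', IsD (HH G) W' → W' ⊆ W → W' ∈ XX A G := by
  classical
  intro W hW W' hD' hsub
  rw [mem_XX] at hW ⊢
  refine ⟨hD', ?_⟩
  have h1 := stable_sup hst (psi G W) hW.2 (univ \ W')
  have h2 : psi G W ∪ (univ \ W').sup (fun g => g.1) = psi G W' := by
    change psi G W ∪ psi G W' = psi G W'
    rw [Finset.union_eq_right]
    exact Finset.sup_mono (Finset.sdiff_subset_sdiff (Finset.Subset.refl _) hsub)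
  rw [h2] at h1
  exact h1

theorem psi_phi {A G : Finset (Finset ℕ)}
    (hgen : ∀ S ∈ A, ∀ i ∈ S, ∃ g ∈ G, i ∈ g ∧ g ⊆ S) (S : Finset ℕ) (hS : S ∈ A) :
    psi G (phi G S) = S := by
  classical
  apply Finset.Subset.antisymm
  · intro x hx
    unfold psi at hx
    rw [Finset.mem_sup] at hx
    obtain ⟨g, hg, hxg⟩ := hx
    simp only [phi, mem_sdiff, mem_filter, mem_univ, true_and, not_not] at hg
    exact hg hxg
  · intro i hi
    obtain ⟨g, hg, hig, hgS⟩ := hgen S hS i hi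
    have hmem : g ∈ G.erase ∅ := by
      rw [mem_erase]
      refine ⟨?_, hg⟩
      rintro rfl
      simp at hig
    unfold psi
    rw [Finset.mem_sup]
    refine ⟨⟨g, hmem⟩, ?_, hig⟩
    simp only [phi, mem_sdiff, mem_filter, mem_univ, true_and, not_not]
    exact hgS

/-- the counting inequalities between the family and the unions of hyperedges -/
theorem counts {A G : Finset (Finset ℕ)}
    (hgen : ∀ S ∈ A, ∀ i ∈ S, ∃ g ∈ G, i ∈ g ∧ g ⊆ S) (i : ℕ) :
    (A.filter (fun S => i ∉ S)).card ≤ ((XX A G).filter (fun W => hyp G i ⊆ W)).card ∧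
      (XX A G).card ≤ A.card := by
  classical
  constructor
  · refine Finset.card_le_card_of_injOn (phi G) ?_ ?_
    · intro S hS
      rw [mem_coe, mem_filter] at hS
      rw [mem_coe, mem_filter, mem_XX, psi_phi hgen S hS.1]
      refine ⟨⟨phi_isD G S, hS.1⟩, ?_⟩
      intro g hg
      rw [mem_hyp] at hg
      simp only [phi, mem_filter, mem_univ, true_and]
      exact fun h => hS.2 (h hg)
    · exact (phi_inj A G hgen).mono (by intro S hS; rw [mem_coe, mem_filter] at hS; exact hS.1)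
  · refine Finset.card_le_card_of_injOn (psi G) ?_ ?_
    · intro W hW
      rw [mem_coe, mem_XX] at hW
      exact hW.2
    · intro W hW W' hW' heq
      rw [mem_coe, mem_XX] at hW hW'
      rw [← phi_psi G W hW.1, ← phi_psi G W' hW'.1, heq]

theorem setup {A G : Finset (Finset ℕ)} (hA : ∃ S ∈ A, S.Nonempty)
    (hgen : ∀ S ∈ A, ∀ i ∈ S, ∃ g ∈ G, i ∈ g ∧ g ⊆ S) : Nonempty (Gen G) := by
  obtain ⟨S, hS, hSne⟩ := hA
  obtain ⟨j, hj⟩ := hSne
  obtain ⟨g0, hg0, hjg0, _⟩ := hgen S hS j hj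
  have hmem : g0 ∈ G.erase ∅ := by
    rw [mem_erase]
    refine ⟨?_, hg0⟩
    rintro rfl
    simp at hjg0
  exact ⟨⟨g0, hmem⟩⟩

/-- the choice of the hyperedges at the vertices -/
theorem exists_choice (G : Finset (Finset ℕ))
    (hanti : ∀ g ∈ G, ∀ h ∈ G, g ≠ ∅ → g ⊆ h → g = h)
    (hthree : ∀ i, (G.filter (fun g => i ∈ g)).card ≤ 3) :
    ∃ K : Gen G → Finset (Finset (Gen G)), (∀ z, ∀ e ∈ K z, e ∈ HH G ∧ z ∈ e) ∧
      (∀ z, (K z).Nonempty) ∧
      (∀ W, IsD (HH G) W → ∀ z ∈ W, (J (HH G) W z).card ≤ 2) ∧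
      (∀ W, IsD (HH G) W → ∀ z ∈ W, (J (HH G) W z).Nonempty →
        2 * (KW K z W).card ≤ (K z).card) := by
  classical
  have hlow : ∀ z : Gen G, z.1 ≠ ∅ ∧ z.1 ∈ G := fun z => mem_erase.mp z.2
  have hcard : ∀ e ∈ HH G, e.card ≤ 3 := by
    intro e he
    rw [HH, mem_image] at he
    obtain ⟨i, _, rfl⟩ := he
    refine le_trans ?_ (hthree i)
    refine Finset.card_le_card_of_injOn (fun g : Gen G => g.1) ?_ ?_
    · intro g hg
      rw [mem_coe, mem_hyp] at hg
      rw [mem_coe, mem_filter]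
      exact ⟨(hlow g).2, hg⟩
    · intro g _ h _ heq
      exact Subtype.ext heq
  have hz : ∀ z : Gen G, ∃ e ∈ HH G, z ∈ e := by
    intro z
    obtain ⟨i, hi⟩ := Finset.nonempty_iff_ne_empty.mpr (hlow z).1
    exact ⟨hyp G i, hyp_mem hi, mem_hyp.mpr hi⟩
  have hun : ∀ z x : Gen G, x ≠ z → ∃ e ∈ HH G, z ∈ e ∧ x ∉ e := by
    intro z x hxz
    have hns : ¬ z.1 ⊆ x.1 := by
      intro hsub
      exact hxz (Subtype.ext (hanti z.1 (hlow z).2 x.1 (hlow x).2 (hlow z).1 hsub)).symm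
    rw [Finset.not_subset] at hns
    obtain ⟨i, hi, hix⟩ := hns
    refine ⟨hyp G i, hyp_mem hi, mem_hyp.mpr hi, ?_⟩
    rw [mem_hyp]
    exact hix
  have hex := fun z => exists_K (HH G) z hcard (hz z) (hun z)
  choose K hKne hK hKhalf using hex
  refine ⟨K, hK, hKne, ?_, ?_⟩
  · intro W hW z hzW
    obtain ⟨e, he, hze, heW⟩ := hW z hzW
    have hsub : J (HH G) W z ⊆ e.erase z := by
      intro v hv
      rw [J, mem_filter] at hv
      obtain ⟨_, _, _, hvz, hall⟩ := hv
      rw [mem_erase]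
      exact ⟨hvz, hall e he hze heW⟩
    have h1 := card_le_card hsub
    rw [card_erase_of_mem hze] at h1
    have h2 := hcard e he
    omega
  · intro W _ z hzW hJ
    obtain ⟨v, hv⟩ := hJ
    rw [J, mem_filter] at hv
    obtain ⟨_, _, _, hvz, hall⟩ := hv
    exact hKhalf z W hzW ⟨v, hvz, hall⟩

/-- Frankl's conjecture for the families of unions of members of an antichain of degree at most
three which are closed under taking the union with a member of the antichain. -/
theorem frankl_up (A : Finset (Finset ℕ)) (hne : A ≠ {∅}) (G : Finset (Finset ℕ))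
    (hst : ∀ S ∈ A, ∀ g ∈ G, S ∪ g ∈ A)
    (hgen : ∀ S ∈ A, ∀ i ∈ S, ∃ g ∈ G, i ∈ g ∧ g ⊆ S)
    (hanti : ∀ g ∈ G, ∀ h ∈ G, g ≠ ∅ → g ⊆ h → g = h)
    (hthree : ∀ i, (G.filter (fun g => i ∈ g)).card ≤ 3) :
    ∃ i : ℕ, A.card ≤ 2 * (A.filter (fun S => i ∈ S)).card := by
  classical
  by_cases hA : ∀ S ∈ A, S = ∅
  · have : A = ∅ := by
      rcases Finset.eq_empty_or_nonempty A with h | ⟨S, hS⟩
      · exact h
      · exfalso
        apply hne
        rw [Finset.eq_singleton_iff_unique_mem]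
        refine ⟨?_, hA⟩
        rw [← hA S hS]; exact hS
    exact ⟨0, by rw [this]; simp⟩
  · push Not at hA
    have hV : Nonempty (Gen G) := setup hA hgen
    obtain ⟨K, hK, hKne, hJ, hhalf⟩ := exists_choice G hanti hthree
    obtain ⟨e, he, hle⟩ := exists_edge (HH G) (XX A G) K (fun W hW => (mem_XX.mp hW).1)
      (XX_down hst) hK hKne hJ hhalf
    rw [HH, mem_image] at he
    obtain ⟨i, _, rfl⟩ := he
    refine ⟨i, ?_⟩
    have hc := counts hgen (A := A) (G := G) i
    have hsplit := Finset.card_filter_add_card_filter_not (s := A) (fun S => i ∈ S)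
    omega

/-- the strict form if the empty set is not a member -/
theorem strict_up (A : Finset (Finset ℕ)) (hne : A.Nonempty) (h0 : ∅ ∉ A)
    (G : Finset (Finset ℕ))
    (hst : ∀ S ∈ A, ∀ g ∈ G, S ∪ g ∈ A)
    (hgen : ∀ S ∈ A, ∀ i ∈ S, ∃ g ∈ G, i ∈ g ∧ g ⊆ S)
    (hanti : ∀ g ∈ G, ∀ h ∈ G, g ≠ ∅ → g ⊆ h → g = h)
    (hthree : ∀ i, (G.filter (fun g => i ∈ g)).card ≤ 3) :
    ∃ i : ℕ, A.card < 2 * (A.filter (fun S => i ∈ S)).card := by
  classical
  obtain ⟨K, hK, hKne, hJ, hhalf⟩ := exists_choice G hanti hthree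
  have hXne : (XX A G).Nonempty := by
    obtain ⟨S, hS⟩ := hne
    refine ⟨phi G S, ?_⟩
    rw [mem_XX, psi_phi hgen S hS]
    exact ⟨phi_isD G S, hS⟩
  have huniv : univ ∉ XX A G := by
    rw [mem_XX]
    rintro ⟨_, h⟩
    apply h0
    have : psi G univ = ∅ := by
      unfold psi
      simp
    rw [this] at h
    exact h
  obtain ⟨e, he, hle⟩ := exists_edge_lt (HH G) (XX A G) K (fun W hW => (mem_XX.mp hW).1)
    (XX_down hst) hK hKne hJ hhalf hXne huniv
  rw [HH, mem_image] at he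
  obtain ⟨i, _, rfl⟩ := he
  refine ⟨i, ?_⟩
  have hc := counts hgen (A := A) (G := G) i
  have hsplit := Finset.card_filter_add_card_filter_not (s := A) (fun S => i ∈ S)
  omega

/-- Poonen's strengthening for the families of unions of members of an antichain of degree at most
three which are closed under taking the union with a member of the antichain. -/
theorem poonen_up (A : Finset (Finset ℕ)) (hne : A.Nonempty)
    (hsep : ∀ x ∈ A.sup id, ∀ y ∈ A.sup id, x ≠ y →
      ∃ S ∈ A, (x ∈ S ∧ y ∉ S) ∨ (y ∈ S ∧ x ∉ S))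
    (hpow : A ≠ (A.sup id).powerset)
    (G : Finset (Finset ℕ))
    (hst : ∀ S ∈ A, ∀ g ∈ G, S ∪ g ∈ A)
    (hgen : ∀ S ∈ A, ∀ i ∈ S, ∃ g ∈ G, i ∈ g ∧ g ⊆ S)
    (hanti : ∀ g ∈ G, ∀ h ∈ G, g ≠ ∅ → g ⊆ h → g = h)
    (hthree : ∀ i, (G.filter (fun g => i ∈ g)).card ≤ 3) :
    ∃ x ∈ A.sup id, 2 * (A.filter (fun S => x ∈ S)).card > A.card := by
  classical
  by_cases h0 : ∅ ∈ A
  · have hG : G ⊆ A := by
      intro g hg
      have := hst ∅ h0 g hg
      rwa [empty_union] at this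
    have hU : ∀ X ∈ A, ∀ Y ∈ A, X ∪ Y ∈ A := by
      intro X hX Y hY
      have h1 := stable_sup hst X hX (univ \ phi G Y)
      have h2 : (univ \ phi G Y).sup (fun g : Gen G => g.1) = Y := psi_phi hgen Y hY
      rw [h2] at h1
      exact h1
    exact poonen_three A hne hU hsep hpow G hG hgen hanti hthree
  · obtain ⟨i, hi⟩ := strict_up A hne h0 G hst hgen hanti hthree
    refine ⟨i, ?_, hi⟩
    have hpos : 0 < (A.filter (fun S => i ∈ S)).card := by
      have := Finset.card_pos.mpr hne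
      omega
    obtain ⟨S, hS⟩ := Finset.card_pos.mp hpos
    rw [mem_filter] at hS
    exact (Finset.le_sup (f := id) hS.1) hS.2

end Pool.Agent.W849.R3U
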