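import Pool.Agent.W894.MB.Neg

/-!
Project MB, part S_NEG: with few boards some game is undetermined (diagonal argument).
-/

set_option autoImplicit false

namespace Pool.Agent.W849.MDNeg

open Cardinal Pool.Agent.W894.MBNeg

universe u

/-- recursion along the natural numbers with access to the whole history -/
theorem exists_rec {X : Type u} (S : ∀ n : ℕ, (Fin n → X) → X) :
    ∃ f : ℕ → X, ∀ n, f n = S n (fun i => f i.val) := by
  let G : ∀ n : ℕ, Fin n → X := fun n =>
    Nat.rec (motive := fun n => Fin n → X) (fun i => i.elim0) (fun n h => Fin.snoc h (S n h)) n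
  have hG : ∀ n, G (n + 1) = Fin.snoc (α := fun _ => X) (G n) (S n (G n)) := fun n => rfl
  let f : ℕ → X := fun n => S n (G n)
  have hGf : ∀ n, G n = fun i : Fin n => f i.val := by
    intro n
    induction n with
    | zero => funext i; exact i.elim0
    | succ n ih =>
      rw [hG]
      funext i
      refine Fin.lastCases ?_ (fun j => ?_) i
      · rw [Fin.snoc_last]
        rfl
      · rw [Fin.snoc_castSucc, ih]
        rfl
  refine ⟨f, fun n => ?_⟩
  show S n (G n) = _
  rw [hGf n]

/-- The play when the player moving at the times `2 n + e` plays `x n` on all boards and the other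
player uses `τ`. -/
theorem exists_play {K L M : Type u} (e : M ↪ L) (τ : List (K → L) → (K → L)) (b : ℕ)
    (x : ℕ → M) : ∃ f : ℕ → K → L, ∀ n, f n =
      if n % 2 = b then (fun _ => e (x (n / 2))) else τ (List.ofFn (fun i : Fin n => f i.val)) := by
  obtain ⟨f, hf⟩ := exists_rec (X := K → L)
    (fun n h => if n % 2 = b then (fun _ => e (x (n / 2))) else τ (List.ofFn h))
  exact ⟨f, hf⟩

theorem play_agree {K L M : Type u} (e : M ↪ L) (τ : List (K → L) → (K → L)) (b : ℕ)
    (x x' : ℕ → M) (f f' : ℕ → K → L)
    (hf : ∀ n, f n =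
      if n % 2 = b then (fun _ => e (x (n / 2))) else τ (List.ofFn (fun i : Fin n => f i.val)))
    (hf' : ∀ n, f' n =
      if n % 2 = b then (fun _ => e (x' (n / 2))) else τ (List.ofFn (fun i : Fin n => f' i.val)))
    (n : ℕ) : (∀ i, 2 * i + b ≤ n → x i = x' i) → f n = f' n := by
  induction n using Nat.strong_induction_on with
  | _ n ih =>
    intro h
    rw [hf n, hf' n]
    by_cases hn : n % 2 = b
    · rw [if_pos hn, if_pos hn, h (n / 2) (by omega)]
    · rw [if_neg hn, if_neg hn]
      congr 2
      funext i
      exact ih i.val i.isLt (fun j hj => h j (by omega))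

/-- ONE's answers -/
def one {M : Type u} (h : List M → M) (y : ℕ → M) (n : ℕ) : M :=
  h (List.ofFn (fun i : Fin n => y i.val))

/-- TWO's answers -/
def two {M : Type u} (g : List M → M) (x : ℕ → M) (n : ℕ) : M :=
  g (List.ofFn (fun i : Fin (n + 1) => x i.val))

theorem unique_pt {M : Type u} (h g : List M → M) (x x' : ℕ → M) (hx : x = one h (two g x))
    (hx' : x' = one h (two g x')) : x = x' := by
  funext n
  induction n using Nat.strong_induction_on with
  | _ n ih =>
    rw [hx, hx']
    unfold one
    congr 2
    funext i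
    unfold two
    congr 2
    funext j
    exact ih j.val (by omega)

/-- a list as a sequence -/
def ext {M : Type u} (a : M) (l : List M) (i : ℕ) : M := l.getD i a

theorem ext_ofFn {M : Type u} (a : M) (x : ℕ → M) (n i : ℕ) (hi : i < n) :
    ext a (List.ofFn (fun i : Fin n => x i.val)) i = x i := by
  unfold ext
  rw [List.getD_eq_getElem _ _ (by simpa using hi)]
  simp

theorem main : S_NEG.{u} := by
  intro L M e hM hc K hKne hK
  classical
  obtain ⟨a, b, hab⟩ := hM
  have : Nontrivial M := ⟨⟨a, b, hab⟩⟩
  have : Infinite (ℕ → M) := inferInstance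
  set c : Cardinal.{u} := #(ℕ → M) with hcdef
  have hc0 : ℵ₀ ≤ c := Cardinal.aleph0_le_mk _
  let I : Type u := c.ord.ToType
  have hI : #I = #(List M → M) := by
    rw [hc]
    exact Cardinal.mk_ord_toType c
  obtain ⟨ee⟩ := Cardinal.eq.1 hI
  have hIio : ∀ i : I, #(Set.Iio i) < c := fun i => by
    have := Cardinal.mk_Iio_lt i (by simp [I])
    rwa [Cardinal.mk_ord_toType] at this
  have hIic : ∀ i : I, #(Set.Iic i) < c := fun i => by
    have h1 : Set.Iic i ⊆ insert i (Set.Iio i) := by
      intro j hj
      rcases eq_or_lt_of_le (Set.mem_Iic.1 hj) with h | h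
      · exact Or.inl h
      · exact Or.inr h
    have h2 : #(Set.Iic i) ≤ #(Set.Iio i) + 1 :=
      (Cardinal.mk_le_mk_of_subset h1).trans Cardinal.mk_insert_le
    exact h2.trans_lt (Cardinal.add_lt_of_lt hc0 (hIio i) (Cardinal.one_lt_aleph0.trans_le hc0))
  -- the diagonal points
  have hx : ∀ i : I, ∃ x : ℕ → M, ∀ j : I, j < i → x ≠ one (ee j) (two (ee i) x) := by
    intro i
    by_contra hcon
    push Not at hcon
    choose J hJ1 hJ2 using hcon
    have hinj : Function.Injective (fun x : ℕ → M => (⟨J x, hJ1 x⟩ : Set.Iio i)) := by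
      intro x x' hxx
      have hxx' : J x = J x' := congrArg Subtype.val hxx
      have h2 := hJ2 x'
      rw [← hxx'] at h2
      exact unique_pt _ _ x x' (hJ2 x) h2
    have := Cardinal.mk_le_of_injective hinj
    exact absurd (hIio i) (not_lt.2 this)
  choose x hx using hx
  let A : Set (ℕ → L) := {z | (∃ i : I, ∀ n, z (2 * n) = e (x i n) ∧
      z (2 * n + 1) = e (two (ee i) (x i) n)) ∨
    ∃ n, (∀ m : M, e m ≠ z (2 * n + 1)) ∧ ∀ k, k < 2 * n + 1 → ∃ m : M, e m = z k}
  refine ⟨A, ?_, ?_⟩
  · -- ONE does not win
    rintro ⟨σ, hσ⟩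
    -- the play when TWO plays `y`
    choose F hF using exists_play (K := K) e σ 1
    let pull : L → M := fun z => if h : ∃ m, e m = z then h.choose else a
    have hpull : ∀ m, pull (e m) = m := by
      intro m
      have h : ∃ m', e m' = e m := ⟨m, rfl⟩
      show (if h : ∃ m', e m' = e m then h.choose else a) = m
      rw [dif_pos h]
      exact e.injective h.choose_spec
    let h : K → List M → M := fun α l => pull (F (ext a l) (2 * l.length) α)
    have hh : ∀ α y n, one (h α) y n = pull (F y (2 * n) α) := by
      intro α y n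
      show pull (F (ext a (List.ofFn fun i : Fin n => y i.val))
        (2 * (List.ofFn fun i : Fin n => y i.val).length) α) = _
      rw [List.length_ofFn]
      congr 1
      have := play_agree e σ 1 _ _ _ _
        (hF (ext a (List.ofFn fun i : Fin n => y i.val))) (hF y) (2 * n)
        (fun i hi => ext_ofFn a y n i (by omega))
      rw [this]
    let η : K → I := fun α => ee.symm (h α)
    have hη : ∀ α, ee (η α) = h α := fun α => ee.apply_symm_apply _
    obtain ⟨θ, hθ⟩ : ∃ θ : I, ∀ α, η α < θ := by
      have hncof : ¬ IsCofinal (Set.range η) := by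
        intro hco
        have h1 := Order.cof_le hco
        have h2 : #(Set.range η) ≤ #K := Cardinal.mk_range_le
        have h3 : Order.cof I = c.ord.cof := Ordinal.cof_toType c.ord
        rw [h3] at h1
        exact absurd hK (not_lt.2 (h1.trans h2))
      unfold IsCofinal at hncof
      push Not at hncof
      obtain ⟨θ, hθ⟩ := hncof
      exact ⟨θ, fun α => hθ _ ⟨α, rfl⟩⟩
    obtain ⟨y, hy⟩ : ∃ y : ℕ → M, ∀ i : I, i ≤ θ → two (ee i) (x i) ≠ y := by
      by_contra hcon
      push Not at hcon
      have hsur : Function.Surjective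
          (fun i : Set.Iic θ => (two (ee i.1) (x i.1) : ℕ → M)) := by
        intro y
        obtain ⟨i, hi, hiy⟩ := hcon y
        exact ⟨⟨i, hi⟩, hiy⟩
      have := Cardinal.mk_le_of_surjective hsur
      exact absurd (hIic θ) (not_lt.2 this)
    obtain ⟨α, hα⟩ := hσ (F y) (fun n => by
      have := hF y (2 * n)
      rw [if_neg (by omega)] at this
      exact this)
    have hodd : ∀ n, F y (2 * n + 1) α = e (y n) := by
      intro n
      have h1 := hF y (2 * n + 1)
      rw [if_pos (by omega)] at h1
      have h2 := congrFun h1 α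
      rw [h2]
      congr 2
      omega
    rcases hα with ⟨i, hi⟩ | ⟨n, hn, -⟩
    · have hyi : two (ee i) (x i) = y := by
        funext n
        have h1 := (hi n).2
        have h2 : F y (2 * n + 1) α = e (two (ee i) (x i) n) := h1
        rw [hodd] at h2
        exact (e.injective h2).symm
      have hxi : x i = one (ee (η α)) (two (ee i) (x i)) := by
        funext n
        rw [hyi, hη, hh]
        have h1 : F y (2 * n) α = e (x i n) := (hi n).1
        rw [h1, hpull]
      rcases lt_or_ge (η α) i with hlt | hge
      · exact hx i _ hlt hxi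
      · exact hy i (hge.trans (hθ α).le) hyi
    · exact hn (y n) (hodd n).symm
  · -- TWO does not win
    rintro ⟨τ, hτ⟩
    choose F hF using exists_play (K := K) e τ 0
    obtain ⟨α⟩ := hKne
    have hcons : ∀ y, (fun n : ℕ => F y n α) ∉ A := fun y => hτ (F y) (fun n => by
      have := hF y (2 * n + 1)
      rw [if_neg (by omega)] at this
      exact this) α
    have heven : ∀ y n, F y (2 * n) α = e (y n) := by
      intro y n
      have h1 := hF y (2 * n)
      rw [if_pos (by omega)] at h1
      have h2 := congrFun h1 α
      rw [h2]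
      congr 2
      omega
    by_cases hall : ∀ y n, ∃ m : M, e m = F y (2 * n + 1) α
    · let g : List M → M := fun l =>
        (hall (ext a l) (l.length - 1)).choose
      have hg : ∀ y n, e (two g y n) = F y (2 * n + 1) α := by
        intro y n
        have h1 := (hall (ext a (List.ofFn fun i : Fin (n + 1) => y i.val))
          ((List.ofFn fun i : Fin (n + 1) => y i.val).length - 1)).choose_spec
        have h2 : e (two g y n) = F (ext a (List.ofFn fun i : Fin (n + 1) => y i.val))
          (2 * ((List.ofFn fun i : Fin (n + 1) => y i.val).length - 1) + 1) α := h1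
        rw [h2, List.length_ofFn]
        have := play_agree e τ 0 _ _ _ _
          (hF (ext a (List.ofFn fun i : Fin (n + 1) => y i.val))) (hF y) (2 * (n + 1 - 1) + 1)
          (fun i hi => ext_ofFn a y (n + 1) i (by omega))
        rw [this]
        congr 2
      apply hcons (x (ee.symm g))
      left
      refine ⟨ee.symm g, fun n => ⟨heven _ n, ?_⟩⟩
      show F (x (ee.symm g)) (2 * n + 1) α = _
      rw [ee.apply_symm_apply, hg]
    · push Not at hall
      obtain ⟨y, hy⟩ := hall
      have hex : ∃ n, ∀ m : M, e m ≠ F y (2 * n + 1) α := hy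
      apply hcons y
      right
      refine ⟨Nat.find hex, Nat.find_spec hex, fun k hk => ?_⟩
      rcases Nat.even_or_odd' k with ⟨j, hj | hj⟩
      · exact ⟨y j, by rw [hj]; exact (heven y j).symm⟩
      · have h1 := Nat.find_min hex (m := j) (by omega)
        push Not at h1
        obtain ⟨m, hm⟩ := h1
        exact ⟨m, by rw [hj]; exact hm⟩

end Pool.Agent.W849.MDNeg
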